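import Mathlib

namespace Pool.Agent.U491.EF

open Finset

noncomputable section
open Classical

/-- even cycles of length 4 are 2-choosable -/
lemma choose4 {C : Type} (A B D E : Finset C) (hA : 2 ≤ A.card) (hB : 2 ≤ B.card)
    (hD : 2 ≤ D.card) (hE : 2 ≤ E.card) :
    ∃ α ∈ A, ∃ β ∈ B, ∃ γ ∈ D, ∃ δ ∈ E, α ≠ β ∧ β ≠ γ ∧ γ ≠ δ ∧ δ ≠ α := by
  -- it suffices to choose α and γ such that B and E are not contained in {α, γ}
  have suff : (∃ α ∈ A, ∃ γ ∈ D, ¬ B ⊆ {α, γ} ∧ ¬ E ⊆ {α, γ}) →
      ∃ α ∈ A, ∃ β ∈ B, ∃ γ ∈ D, ∃ δ ∈ E, α ≠ β ∧ β ≠ γ ∧ γ ≠ δ ∧ δ ≠ α := by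
    rintro ⟨α, hα, γ, hγ, h1, h2⟩
    rw [Finset.not_subset] at h1 h2
    obtain ⟨β, hβ, h1⟩ := h1
    obtain ⟨δ, hδ, h2⟩ := h2
    rw [mem_insert, mem_singleton, not_or] at h1 h2
    exact ⟨α, hα, β, hβ, γ, hγ, δ, hδ, fun h => h1.1 h.symm, h1.2, fun h => h2.2 h.symm, h2.1⟩
  apply suff
  by_cases hAD : ∃ x ∈ A, x ∈ D
  · obtain ⟨x, hxA, hxD⟩ := hAD
    refine ⟨x, hxA, x, hxD, fun h => ?_, fun h => ?_⟩
    · have := Finset.card_le_card h
      rw [Finset.pair_eq_singleton, Finset.card_singleton] at this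
      omega
    · have := Finset.card_le_card h
      rw [Finset.pair_eq_singleton, Finset.card_singleton] at this
      omega
  · push Not at hAD
    obtain ⟨a1, ha1, a2, ha2, ha⟩ := Finset.one_lt_card.1 hA
    obtain ⟨d1, hd1, d2, hd2, hd⟩ := Finset.one_lt_card.1 hD
    -- a 2-set is contained in at most one of the pairs
    have two : ∀ (S : Finset C), 2 ≤ S.card → ∀ (a d a' d' : C), a ∈ A → d ∈ D → a' ∈ A →
        d' ∈ D → (a ≠ a' ∨ d ≠ d') → S ⊆ {a, d} → S ⊆ {a', d'} → False := by
      intro S hS a d a' d' ha hd ha' hd' hne h1 h2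
      have had : a ≠ d' := fun h => hAD a ha (h ▸ hd')
      have hda : d ≠ a' := fun h => hAD a' ha' (h ▸ hd)
      rcases hne with hne | hne
      · have : S ⊆ {d} := by
          intro x hx
          have e1 := h1 hx
          have e2 := h2 hx
          rw [mem_insert, mem_singleton] at e1 e2
          rw [mem_singleton]
          rcases e1 with rfl | rfl
          · rcases e2 with h | h
            · exact absurd h hne
            · exact absurd h had
          · rfl
        have := Finset.card_le_card this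
        rw [Finset.card_singleton] at this
        omega
      · have : S ⊆ {a} := by
          intro x hx
          have e1 := h1 hx
          have e2 := h2 hx
          rw [mem_insert, mem_singleton] at e1 e2
          rw [mem_singleton]
          rcases e1 with rfl | rfl
          · rfl
          · rcases e2 with h | h
            · exact absurd h hda
            · exact absurd h hne
        have := Finset.card_le_card this
        rw [Finset.card_singleton] at this
        omega
    by_contra hcon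
    push Not at hcon
    have h1 := hcon a1 ha1 d1 hd1
    have h2 := hcon a1 ha1 d2 hd2
    have h3 := hcon a2 ha2 d1 hd1
    have t12 := fun S hS => two S hS a1 d1 a1 d2 ha1 hd1 ha1 hd2 (Or.inr hd)
    have t13 := fun S hS => two S hS a1 d1 a2 d1 ha1 hd1 ha2 hd1 (Or.inl ha)
    have t23 := fun S hS => two S hS a1 d2 a2 d1 ha1 hd2 ha2 hd1 (Or.inl ha)
    by_cases b1 : B ⊆ {a1, d1}
    · by_cases b2 : B ⊆ {a1, d2}
      · exact t12 B hB b1 b2
      · by_cases b3 : B ⊆ {a2, d1}
        · exact t13 B hB b1 b3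
        · exact t23 E hE (h2 b2) (h3 b3)
    · by_cases b2 : B ⊆ {a1, d2}
      · by_cases b3 : B ⊆ {a2, d1}
        · exact t23 B hB b2 b3
        · exact t13 E hE (h1 b1) (h3 b3)
      · exact t12 E hE (h1 b1) (h2 b2)

variable {V : Type} (G : SimpleGraph V) {C : Type} (L : V → Finset C)

/-- the subgraph on `W` is colourable from the lists -/
def Colb (W : Finset V) : Prop :=
  ∃ c : V → C, (∀ v ∈ W, c v ∈ L v) ∧ ∀ u ∈ W, ∀ v ∈ W, G.Adj u v → c u ≠ c v

/-- neighbours in `W` -/
def nb (W : Finset V) (v : V) : Finset V := W.filter fun u => G.Adj v u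

variable {G L}

lemma critical_deg {W : Finset V} (hW : ¬ Colb G L W) {v : V} (hv : v ∈ W)
    (hsub : Colb G L (W.erase v)) : (L v).card ≤ (nb G W v).card := by
  by_contra hcon
  push Not at hcon
  apply hW
  obtain ⟨c, hc1, hc2⟩ := hsub
  obtain ⟨x, hx, hxn⟩ : ∃ x ∈ L v, x ∉ (nb G W v).image c := by
    by_contra h
    push Not at h
    have h1 := Finset.card_le_card (show L v ⊆ (nb G W v).image c from h)
    have h2 := Finset.card_image_le (s := nb G W v) (f := c)
    omega
  refine ⟨fun u => if u = v then x else c u, ?_, ?_⟩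
  · intro u hu
    by_cases h : u = v
    · simp only [h, if_true]; exact hx
    · simp only [h, if_false]
      exact hc1 u (Finset.mem_erase.2 ⟨h, hu⟩)
  · have hkey : ∀ u ∈ W, u ≠ v → G.Adj v u → x ≠ c u := by
      intro u hu _ hadj h
      apply hxn
      rw [Finset.mem_image]
      exact ⟨u, by unfold nb; rw [mem_filter]; exact ⟨hu, hadj⟩, h.symm⟩
    intro u hu w hw huw
    by_cases h1 : u = v
    · by_cases h2 : w = v
      · exact absurd (h1.trans h2.symm) huw.ne
      · simp only [h1, h2, if_true, if_false]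
        exact hkey w hw h2 (h1 ▸ huw)
    · by_cases h2 : w = v
      · simp only [h1, h2, if_true, if_false]
        exact (hkey u hu h1 (h2 ▸ huw.symm)).symm
      · simp only [h1, h2, if_false]
        exact hc2 u (Finset.mem_erase.2 ⟨h1, hu⟩) w (Finset.mem_erase.2 ⟨h2, hw⟩) huw

lemma critical_cycle {W : Finset V} (hW : ¬ Colb G L W) (hL : ∀ v, 4 ≤ (L v).card)
    (hsub : ∀ W' : Finset V, W' ⊂ W → Colb G L W') {a b c d : V} (ha : a ∈ W) (hb : b ∈ W)
    (hc : c ∈ W) (hd : d ∈ W) (hab : G.Adj a b) (hbc : G.Adj b c) (hcd : G.Adj c d)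
    (hda : G.Adj d a) (hac : a ≠ c) (hbd : b ≠ d) (hac' : ¬ G.Adj a c) (hbd' : ¬ G.Adj b d)
    (na : (nb G W a).card = 4) (nb' : (nb G W b).card = 4) (nc : (nb G W c).card = 4)
    (nd : (nb G W d).card = 4) : False := by
  apply hW
  set S : Finset V := {a, b, c, d} with hS
  have hss : W \ S ⊂ W := by
    refine ⟨Finset.sdiff_subset, fun h => ?_⟩
    have := h ha
    rw [mem_sdiff] at this
    exact this.2 (by rw [hS]; simp)
  obtain ⟨col, hc1, hc2⟩ := hsub (W \ S) hss
  -- free colours
  have free : ∀ x y z : V, y ∈ W → z ∈ W → y ∈ S → z ∈ S → y ≠ z → G.Adj x y → G.Adj x z →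
      (nb G W x).card = 4 → 2 ≤ (L x \ ((nb G W x) \ S).image col).card := by
    intro x y z hy hz hyS hzS hyz hxy hxz hn
    have h1 : (nb G W x) \ S ⊆ ((nb G W x).erase y).erase z := by
      intro w hw
      rw [mem_sdiff] at hw
      rw [mem_erase, mem_erase]
      exact ⟨fun h => hw.2 (h ▸ hzS), fun h => hw.2 (h ▸ hyS), hw.1⟩
    have h2 : (((nb G W x).erase y).erase z).card = 2 := by
      rw [Finset.card_erase_of_mem, Finset.card_erase_of_mem, hn]
      · unfold nb; rw [mem_filter]; exact ⟨hy, hxy⟩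
      · rw [mem_erase]; unfold nb; rw [mem_filter]; exact ⟨hyz.symm, hz, hxz⟩
    have h3 := Finset.card_le_card h1
    have h4 := Finset.card_image_le (s := (nb G W x) \ S) (f := col)
    have h5 := Finset.le_card_sdiff (((nb G W x) \ S).image col) (L x)
    have h6 := hL x
    omega
  have haS : a ∈ S := by rw [hS]; simp
  have hbS : b ∈ S := by rw [hS]; simp
  have hcS : c ∈ S := by rw [hS]; simp
  have hdS : d ∈ S := by rw [hS]; simp
  obtain ⟨α, hα, β, hβ, γ, hγ, δ, hδ, n1, n2, n3, n4⟩ := choose4 _ _ _ _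
    (free a b d hb hd hbS hdS hbd hab hda.symm na)
    (free b a c ha hc haS hcS hac hab.symm hbc nb')
    (free c b d hb hd hbS hdS hbd hbc.symm hcd nc)
    (free d a c ha hc haS hcS hac hda hcd.symm nd)
  rw [mem_sdiff] at hα hβ hγ hδ
  let c' : V → C := fun v => if v = a then α else if v = b then β else if v = c then γ else
    if v = d then δ else col v
  have eab : b ≠ a := hab.ne.symm
  have ebc : c ≠ b := hbc.ne.symm
  have ecd : d ≠ c := hcd.ne.symm
  have eda : d ≠ a := hda.ne
  have ca : c' a = α := by simp [c']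
  have cb : c' b = β := by simp [c', eab]
  have cc : c' c = γ := by simp [c', hac.symm, ebc]
  have cdd : c' d = δ := by simp [c', eda, hbd.symm, ecd]
  have hout : ∀ v, v ∉ S → c' v = col v := by
    intro v hv
    rw [hS] at hv
    simp only [mem_insert, mem_singleton, not_or] at hv
    simp [c', hv.1, hv.2.1, hv.2.2.1, hv.2.2.2]
  have hS4 : ∀ v, v ∈ S → v = a ∨ v = b ∨ v = c ∨ v = d := by
    intro v hv
    rw [hS] at hv
    simpa using hv
  have hfree : ∀ x ∈ S, c' x ∈ L x ∧ c' x ∉ ((nb G W x) \ S).image col := by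
    intro x hx
    rcases hS4 x hx with rfl | rfl | rfl | rfl
    · rw [ca]; exact hα
    · rw [cb]; exact hβ
    · rw [cc]; exact hγ
    · rw [cdd]; exact hδ
  have hcross : ∀ x ∈ S, ∀ y ∈ W, y ∉ S → G.Adj x y → c' x ≠ c' y := by
    intro x hx y hy hyS hxy h
    apply (hfree x hx).2
    rw [hout y hyS] at h
    rw [Finset.mem_image]
    refine ⟨y, ?_, h.symm⟩
    rw [mem_sdiff]
    exact ⟨by unfold nb; rw [mem_filter]; exact ⟨hy, hxy⟩, hyS⟩
  refine ⟨c', ?_, ?_⟩
  · intro v hv
    by_cases h : v ∈ S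
    · exact (hfree v h).1
    · rw [hout v h]
      exact hc1 v (mem_sdiff.2 ⟨hv, h⟩)
  · intro u hu v hv huv
    by_cases h1 : u ∈ S
    · by_cases h2 : v ∈ S
      · rcases hS4 u h1 with rfl | rfl | rfl | rfl <;> rcases hS4 v h2 with rfl | rfl | rfl | rfl
        · exact absurd rfl huv.ne
        · rw [ca, cb]; exact n1
        · exact absurd huv hac'
        · rw [ca, cdd]; exact n4.symm
        · rw [cb, ca]; exact n1.symm
        · exact absurd rfl huv.ne
        · rw [cb, cc]; exact n2
        · exact absurd huv hbd'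
        · exact absurd huv.symm hac'
        · rw [cc, cb]; exact n2.symm
        · exact absurd rfl huv.ne
        · rw [cc, cdd]; exact n3
        · rw [cdd, ca]; exact n4
        · exact absurd huv.symm hbd'
        · rw [cdd, cc]; exact n3.symm
        · exact absurd rfl huv.ne
      · exact hcross u h1 v hv h2 huv
    · by_cases h2 : v ∈ S
      · exact (hcross v h2 u hu h1 huv.symm).symm
      · rw [hout u h1, hout v h2]
        exact hc2 u (mem_sdiff.2 ⟨hu, h1⟩) v (mem_sdiff.2 ⟨hv, h2⟩) huv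

end

end Pool.Agent.U491.EF
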