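import Mathlib

/-!
# Definitions for MP_caf32e_co (helper491)

Graphs embedded in closed orientable surfaces, by rotation systems: the facial boundary walks, the
genus, homotopy of walks on the surface, list colouring.
-/

namespace Pool.Agent.U491.EF

open SimpleGraph

variable {V : Type}

/-- A rotation system of the graph `K`: a cyclic order `next` of the darts (edges directed away
from `v`) at every vertex `v`.  Rotation systems of a finite connected graph are its cellular
embeddings in closed oriented surfaces. -/
structure Rotation (K : SimpleGraph V) where
  next : Equiv.Perm K.Dart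
  next_fst : ∀ d, (next d).fst = d.fst
  cyclic : ∀ d e : K.Dart, d.fst = e.fst → next.SameCycle d e

open Classical in
/-- Reverse the darts of the subgraph `G` of `K`, fix all other darts. -/
noncomputable def flip (K G : SimpleGraph V) (d : K.Dart) : K.Dart :=
  if G.Adj d.fst d.snd then d.symm else d

lemma flip_flip (K G : SimpleGraph V) : Function.Involutive (flip K G) := by
  intro d
  unfold flip
  by_cases h : G.Adj d.fst d.snd
  · rw [if_pos h, if_pos (show G.Adj d.symm.fst d.symm.snd from h.symm)]
    exact d.symm_symm
  · rw [if_neg h, if_neg h]

variable {K : SimpleGraph V}

/-- Tracing of the facial boundary walks of the subgraph `G` of the embedded graph `K`: after a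
dart of `G` turn round at its end and go to the next dart in the rotation, darts which are not in
`G` being skipped.  For `G = K` this is the usual face tracing `d ↦ next d.symm`.  The facial
boundary walks of `G` are the orbits, restricted to the darts of `G`. -/
noncomputable def trace (R : Rotation K) (G : SimpleGraph V) : Equiv.Perm K.Dart :=
  (flip_flip K G).toPerm.trans R.next

/-- `R` is a cellular embedding of the connected graph `K` in the closed orientable surface of
genus `g` (Euler's formula; the faces are the orbits of the face tracing of `K`). -/
def HasGenus (R : Rotation K) (g : ℕ) : Prop :=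
  K.Connected ∧ (Nat.card V : ℤ) - Nat.card K.edgeSet
    + Nat.card (Quotient (Equiv.Perm.SameCycle.setoid (trace R K))) = 2 - 2 * g

/-- Every facial boundary walk of `G` has even length. -/
def EvenFaced (R : Rotation K) (G : SimpleGraph V) : Prop :=
  ∀ d : K.Dart, Even (Nat.card {e : K.Dart // (trace R G).SameCycle d e ∧ G.Adj e.fst e.snd})

/-- The closed walk `f` runs once around a face of the cellular embedding of `K`. -/
def IsFacial (R : Rotation K) {v : V} (f : K.Walk v v) : Prop :=
  ∃ d : K.Dart, f.darts =
    (List.range (Function.minimalPeriod (trace R K) d)).map (fun i => (trace R K)^[i] d)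

/-- Homotopy (with fixed ends) of walks of `K` on the surface: generated by inserting or removing
an edge run forth and back, and by inserting or removing the boundary walk of a face. -/
inductive Homotopic (R : Rotation K) : ∀ {u v : V}, K.Walk u v → K.Walk u v → Prop
  | refl {u v : V} (p : K.Walk u v) : Homotopic R p p
  | symm {u v : V} {p q : K.Walk u v} : Homotopic R p q → Homotopic R q p
  | trans {u v : V} {p q r : K.Walk u v} : Homotopic R p q → Homotopic R q r → Homotopic R p r
  | spur {u v w x : V} (p : K.Walk u v) (h : K.Adj v w) (q : K.Walk v x) :
      Homotopic R (p.append (Walk.cons h (Walk.cons h.symm q))) (p.append q)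
  | face {u v x : V} (p : K.Walk u v) (f : K.Walk v v) (q : K.Walk v x) (hf : IsFacial R f) :
      Homotopic R (p.append (f.append q)) (p.append q)

/-- A closed walk is contractible if it is homotopic to the constant walk. -/
def Contractible (R : Rotation K) {v : V} (c : K.Walk v v) : Prop :=
  Homotopic R c Walk.nil

/-- `G` is `k`-list colourable (`k`-choosable). -/
def ListColourable (G : SimpleGraph V) (k : ℕ) : Prop :=
  ∀ (C : Type) (L : V → Finset C), (∀ v, k ≤ (L v).card) →
    ∃ c : V → C, (∀ v, c v ∈ L v) ∧ ∀ u v, G.Adj u v → c u ≠ c v

end Pool.Agent.U491.EF
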