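import Mathlib
import Pool.Agent.U491.EF.Defs

namespace Pool.Agent.U491.EF

open SimpleGraph Finset

noncomputable section
open Classical

variable {V : Type} {K : SimpleGraph V}

/-- 1-chains mod 2 -/
abbrev Ch (K : SimpleGraph V) := K.edgeSet → ZMod 2

lemma z2 (a : ZMod 2) : a + a = 0 := by
  have h : (2 : ZMod 2) = 0 := by decide
  rw [← two_mul, h, zero_mul]

/-- the edge of a dart -/
def ed (d : K.Dart) : K.edgeSet := ⟨d.edge, d.edge_mem⟩

lemma ed_symm (d : K.Dart) : ed d.symm = ed d := Subtype.ext d.edge_symm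

lemma ed_eq {d e : K.Dart} : ed d = ed e ↔ d = e ∨ d = e.symm := by
  unfold ed
  rw [Subtype.mk.injEq, dart_edge_eq_iff]

lemma exists_dart (e : K.edgeSet) : ∃ d : K.Dart, ed d = e := by
  obtain ⟨e, he⟩ := e
  induction e using Sym2.ind with
  | _ a b => exact ⟨⟨(a, b), he⟩, rfl⟩

/-- an orientation of the edges -/
def ori (e : K.edgeSet) : K.Dart := (exists_dart e).choose

lemma ed_ori (e : K.edgeSet) : ed (ori e) = e := (exists_dart e).choose_spec

lemma dart_ne_symm (d : K.Dart) : d ≠ d.symm := (d.symm_ne).symm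

lemma ori_cases (d : K.Dart) : d = ori (ed d) ∨ d = (ori (ed d)).symm :=
  ed_eq.1 (ed_ori (ed d)).symm

variable [Fintype V]

lemma sum_darts {M : Type} [AddCommMonoid M] (f : K.Dart → M) :
    ∑ d, f d = ∑ e : K.edgeSet, (f (ori e) + f (ori e).symm) := by
  rw [← Finset.sum_fiberwise (univ : Finset K.Dart) ed f]
  refine Finset.sum_congr rfl fun e _ => ?_
  have : (univ.filter fun d : K.Dart => ed d = e) = {ori e, (ori e).symm} := by
    ext d
    simp only [mem_filter, mem_univ, true_and, mem_insert, mem_singleton]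
    constructor
    · intro h; subst h; exact ori_cases d
    · rintro (h | h)
      · rw [h, ed_ori]
      · rw [h, ed_symm, ed_ori]
  rw [this, Finset.sum_pair (dart_ne_symm _)]

/-- boundary of a 1-chain -/
def bd (K : SimpleGraph V) : Ch K →ₗ[ZMod 2] (V → ZMod 2) where
  toFun a v := ∑ d : K.Dart, if d.fst = v then a (ed d) else 0
  map_add' a b := by
    ext v
    simp only [Pi.add_apply]
    rw [← Finset.sum_add_distrib]
    refine Finset.sum_congr rfl fun d _ => ?_
    split_ifs <;> simp
  map_smul' c a := by
    ext v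
    simp only [Pi.smul_apply, RingHom.id_apply, smul_eq_mul]
    rw [Finset.mul_sum]
    refine Finset.sum_congr rfl fun d _ => ?_
    split_ifs <;> simp

lemma bd_apply (a : Ch K) (v : V) :
    bd K a v = ∑ d : K.Dart, if d.fst = v then a (ed d) else 0 := rfl

lemma bd_single (d : K.Dart) :
    bd K (Pi.single (ed d) 1) = Pi.single d.fst 1 + Pi.single d.snd 1 := by
  ext v
  rw [bd_apply]
  have h1 : ∀ d' : K.Dart, (if d'.fst = v then (Pi.single (ed d) (1 : ZMod 2) : Ch K) (ed d') else 0)
      = (if d' = d then (if d.fst = v then 1 else 0) else 0)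
        + (if d' = d.symm then (if d.snd = v then 1 else 0) else 0) := by
    intro d'
    by_cases h : ed d' = ed d
    · rw [h, Pi.single_eq_same]
      rcases ed_eq.1 h with rfl | rfl
      · rw [if_pos rfl, if_neg (dart_ne_symm _), add_zero]
      · rw [if_neg (Ne.symm (dart_ne_symm d)), if_pos rfl, zero_add]
        rfl
    · have e1 : ¬ d' = d := fun h' => h (by rw [h'])
      have e2 : ¬ d' = d.symm := fun h' => h (by rw [h', ed_symm])
      rw [Pi.single_eq_of_ne h, if_neg e1, if_neg e2]
      simp
  rw [Finset.sum_congr rfl fun d' _ => h1 d', Finset.sum_add_distrib, Finset.sum_ite_eq',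
    Finset.sum_ite_eq', if_pos (mem_univ _), if_pos (mem_univ _), Pi.add_apply, Pi.single_apply,
    Pi.single_apply]
  congr 1 <;> simp [eq_comm]

/-- chain of a walk -/
def wc {u v : V} (p : K.Walk u v) : Ch K :=
  (p.darts.map fun d => (Pi.single (ed d) (1 : ZMod 2) : Ch K)).sum

omit [Fintype V] in
@[simp] lemma wc_nil {u : V} : wc (Walk.nil : K.Walk u u) = 0 := rfl

omit [Fintype V] in
@[simp] lemma wc_cons {u v w : V} (h : K.Adj u v) (p : K.Walk v w) :
    wc (Walk.cons h p) = Pi.single (ed ⟨(u, v), h⟩) 1 + wc p := by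
  unfold wc
  rw [Walk.darts_cons, List.map_cons, List.sum_cons]

omit [Fintype V] in
@[simp] lemma wc_append {u v w : V} (p : K.Walk u v) (q : K.Walk v w) :
    wc (p.append q) = wc p + wc q := by
  unfold wc
  rw [Walk.darts_append, List.map_append, List.sum_append]

lemma bd_wc {u v : V} (p : K.Walk u v) :
    bd K (wc p) = Pi.single u 1 + Pi.single v 1 := by
  induction p with
  | nil =>
    rw [wc_nil, map_zero]
    ext x; simp only [Pi.zero_apply, Pi.add_apply, z2]
  | @cons a b c h p ih =>
    rw [wc_cons, map_add, bd_single, ih]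
    show (Pi.single a 1 + Pi.single b 1) + (Pi.single b 1 + Pi.single c 1) = _
    ext x
    simp only [Pi.add_apply]
    linear_combination z2 ((Pi.single b 1 : V → ZMod 2) x)

/-- 0- or 2-dimensional cochains constant on the classes of `s`, their coboundary -/
def cd (s : Setoid K.Dart) : (Quotient s → ZMod 2) →ₗ[ZMod 2] Ch K where
  toFun x e := x (Quotient.mk s (ori e)) + x (Quotient.mk s (ori e).symm)
  map_add' x y := by ext e; simp only [Pi.add_apply]; ring
  map_smul' c x := by ext e; simp only [Pi.smul_apply, smul_eq_mul, RingHom.id_apply]; ring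

omit [Fintype V] in
lemma cd_ed (s : Setoid K.Dart) (x : Quotient s → ZMod 2) (d : K.Dart) :
    cd s x (ed d) = x (Quotient.mk s d) + x (Quotient.mk s d.symm) := by
  show x (Quotient.mk s (ori (ed d))) + x (Quotient.mk s (ori (ed d)).symm) = _
  rcases ori_cases d with h | h
  · rw [← h]
  · have h' : d.symm = ori (ed d) := by rw [← Dart.symm_symm (ori (ed d)), ← h]
    rw [← h', Dart.symm_symm, add_comm]

variable (R : Rotation K)

omit [Fintype V] in
lemma trace_self (d : K.Dart) : trace R K d = R.next d.symm := by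
  show R.next (flip K K d) = _
  unfold flip
  rw [if_pos d.adj]

/-- the coboundary of a function constant along the faces is a cycle -/
lemma bd_cd (s : Setoid K.Dart) (hs : ∀ d, s d (trace R K d)) (x : Quotient s → ZMod 2) :
    bd K (cd s x) = 0 := by
  ext v
  rw [bd_apply, Pi.zero_apply]
  have h1 : ∀ d : K.Dart, (if d.fst = v then cd s x (ed d) else 0)
      = (if d.fst = v then x (Quotient.mk s d) else 0)
        + (if d.fst = v then x (Quotient.mk s (R.next d)) else 0) := by
    intro d
    have h2 : Quotient.mk s d.symm = Quotient.mk s (R.next d) := by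
      apply Quotient.sound
      have := hs d.symm
      rwa [trace_self, Dart.symm_symm] at this
    split_ifs
    · rw [cd_ed, h2]
    · simp
  rw [Finset.sum_congr rfl fun d _ => h1 d, Finset.sum_add_distrib]
  have h3 : ∑ d : K.Dart, (if d.fst = v then x (Quotient.mk s (R.next d)) else 0)
      = ∑ d : K.Dart, (if d.fst = v then x (Quotient.mk s d) else 0) := by
    rw [← Equiv.sum_comp R.next (fun d => if d.fst = v then x (Quotient.mk s d) else 0)]
    refine Finset.sum_congr rfl fun d _ => ?_
    rw [R.next_fst]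
  rw [h3, z2]

end

end Pool.Agent.U491.EF
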