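import Mathlib
import Pool.Agent.U491.EF.Chain

namespace Pool.Agent.U491.EF

open SimpleGraph Finset Module

noncomputable section
open Classical

variable {V : Type} [Fintype V] {K : SimpleGraph V}

/-- connected graph: the cycle space is not too large -/
lemma dim_Z_le (hK : K.Connected) :
    finrank (ZMod 2) (LinearMap.ker (bd K)) + Fintype.card V ≤ Fintype.card K.edgeSet + 1 := by
  have h1 := LinearMap.finrank_range_add_finrank_ker (bd K)
  rw [Module.finrank_fintype_fun_eq_card] at h1
  obtain ⟨v0⟩ := hK.nonempty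
  have htop : (⊤ : Submodule (ZMod 2) (V → ZMod 2)) ≤
      LinearMap.range (bd K) ⊔ Submodule.span (ZMod 2) {Pi.single v0 1} := by
    intro f _
    have hf : f = ∑ v, f v • (Pi.single v (1 : ZMod 2) : V → ZMod 2) := by
      ext w
      simp [Finset.sum_apply, Pi.single_apply]
    rw [hf]
    refine Submodule.sum_mem _ fun v _ => Submodule.smul_mem _ _ ?_
    obtain ⟨p⟩ := hK.preconnected v v0
    have h2 : (Pi.single v (1 : ZMod 2) : V → ZMod 2) = bd K (wc p) + Pi.single v0 1 := by
      rw [bd_wc]
      ext x
      simp only [Pi.add_apply]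
      linear_combination - z2 ((Pi.single v0 1 : V → ZMod 2) x)
    rw [h2]
    exact Submodule.add_mem_sup (LinearMap.mem_range_self _ _)
      (Submodule.mem_span_singleton_self _)
  have h3 : finrank (ZMod 2) (V → ZMod 2) ≤
      finrank (ZMod 2) (LinearMap.range (bd K)) + 1 := by
    calc finrank (ZMod 2) (V → ZMod 2)
        = finrank (ZMod 2) (⊤ : Submodule (ZMod 2) (V → ZMod 2)) := finrank_top _ _ |>.symm
      _ ≤ finrank (ZMod 2) ↥(LinearMap.range (bd K) ⊔ Submodule.span (ZMod 2) {Pi.single v0 1}) :=
          Submodule.finrank_mono htop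
      _ ≤ finrank (ZMod 2) (LinearMap.range (bd K))
          + finrank (ZMod 2) (Submodule.span (ZMod 2) {(Pi.single v0 1 : V → ZMod 2)}) :=
          Submodule.finrank_add_le_finrank_add_finrank _ _
      _ ≤ finrank (ZMod 2) (LinearMap.range (bd K)) + 1 := by
          gcongr
          exact (finrank_span_le_card _).trans (by simp)
  rw [Module.finrank_fintype_fun_eq_card] at h3
  omega

variable (R : Rotation K)

/-- faces: the orbits of the face tracing -/
abbrev fs : Setoid K.Dart := Equiv.Perm.SameCycle.setoid (trace R K)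

omit [Fintype V] in
lemma fs_trace (d : K.Dart) : fs R d (trace R K d) := ⟨1, by simp⟩

omit [Fintype V] in
lemma const_of_ker (hK : K.Connected) (s : Setoid K.Dart) (hs : ∀ d, s d (trace R K d))
    (x : Quotient s → ZMod 2) (hx : cd s x = 0) (d d' : K.Dart) :
    x (Quotient.mk s d) = x (Quotient.mk s d') := by
  have hsymm : ∀ d : K.Dart, x (Quotient.mk s d) = x (Quotient.mk s d.symm) := by
    intro d
    have h := cd_ed s x d
    rw [hx, Pi.zero_apply] at h
    linear_combination - h - z2 (x (Quotient.mk s d.symm))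
  have hrot : ∀ d : K.Dart, x (Quotient.mk s (R.next d)) = x (Quotient.mk s d) := by
    intro d
    have h2 : Quotient.mk s d.symm = Quotient.mk s (R.next d) := by
      apply Quotient.sound
      have := hs d.symm
      rwa [trace_self, Dart.symm_symm] at this
    rw [← h2, ← hsymm]
  have hpow : ∀ (n : ℕ) (d : K.Dart), x (Quotient.mk s ((R.next ^ n) d)) = x (Quotient.mk s d) := by
    intro n
    induction n with
    | zero => intro d; simp
    | succ n ih => intro d; rw [pow_succ', Equiv.Perm.mul_apply, hrot, ih]
  have hz : ∀ (n : ℤ) (d : K.Dart), x (Quotient.mk s ((R.next ^ n) d)) = x (Quotient.mk s d) := by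
    intro n d
    obtain ⟨m, rfl | rfl⟩ := n.eq_nat_or_neg
    · rw [zpow_natCast]; exact hpow m d
    · have := hpow m ((R.next ^ (-(m : ℤ))) d)
      rw [← this, ← zpow_natCast, ← Equiv.Perm.mul_apply, ← zpow_add]
      simp
  have hcyc : ∀ d e : K.Dart, d.fst = e.fst → x (Quotient.mk s d) = x (Quotient.mk s e) := by
    intro d e h
    obtain ⟨n, hn⟩ := R.cyclic d e h
    rw [← hn, hz]
  have key : ∀ {u v : V} (p : K.Walk u v) (d d' : K.Dart), d.fst = u → d'.fst = v →
      x (Quotient.mk s d) = x (Quotient.mk s d') := by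
    intro u v p
    induction p with
    | nil => intro d d' h h'; exact hcyc d d' (h.trans h'.symm)
    | @cons a b c h p ih =>
      intro d d' h1 h2
      let e : K.Dart := ⟨(a, b), h⟩
      rw [hcyc d e h1, hsymm e]
      exact ih e.symm d' rfl h2
  obtain ⟨p⟩ := hK.preconnected d.fst d'.fst
  exact key p d d' rfl rfl

lemma dim_B_ge (hK : K.Connected) :
    Fintype.card (Quotient (fs R)) ≤ finrank (ZMod 2) (LinearMap.range (cd (fs R))) + 1 := by
  have h1 := LinearMap.finrank_range_add_finrank_ker (cd (fs R))
  rw [Module.finrank_fintype_fun_eq_card] at h1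
  have h2 : finrank (ZMod 2) (LinearMap.ker (cd (fs R))) ≤ 1 := by
    by_cases hne : Nonempty K.Dart
    · obtain ⟨d0⟩ := hne
      have hone : (1 : Quotient (fs R) → ZMod 2) ∈ LinearMap.ker (cd (fs R)) := by
        rw [LinearMap.mem_ker]
        ext e
        exact z2 1
      refine finrank_le_one ⟨1, hone⟩ fun w => ⟨w.1 (Quotient.mk _ d0), ?_⟩
      apply Subtype.ext
      ext q
      induction q using Quotient.ind with
      | _ d =>
        show w.1 (Quotient.mk _ d0) * 1 = w.1 (Quotient.mk _ d)
        rw [mul_one]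
        exact const_of_ker R hK (fs R) (fs_trace R) w.1 (LinearMap.mem_ker.1 w.2) d0 d
    · have : IsEmpty K.Dart := not_nonempty_iff.1 hne
      have : IsEmpty (Quotient (fs R)) := ⟨fun q => by
        induction q using Quotient.ind with
        | _ d => exact isEmptyElim d⟩
      have h3 : finrank (ZMod 2) (Quotient (fs R) → ZMod 2) = 0 := by
        rw [Module.finrank_fintype_fun_eq_card, Fintype.card_eq_zero]
      have := Submodule.finrank_le (LinearMap.ker (cd (fs R)))
      omega
  omega

lemma cd_mem_Z (s : Setoid K.Dart) (hs : ∀ d, s d (trace R K d)) :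
    LinearMap.range (cd s) ≤ LinearMap.ker (bd K) := by
  rintro _ ⟨x, rfl⟩
  exact bd_cd R s hs x

/-- the first homology has dimension at most `2g` -/
lemma dim_homology {g : ℕ} (hg : HasGenus R g) :
    finrank (ZMod 2) (LinearMap.ker (bd K))
      ≤ finrank (ZMod 2) (LinearMap.range (cd (fs R))) + 2 * g := by
  obtain ⟨hK, he⟩ := hg
  have h1 := dim_Z_le hK
  have h2 : Nat.card (Quotient (Equiv.Perm.SameCycle.setoid (trace R K)))
      ≤ finrank (ZMod 2) (LinearMap.range (cd (fs R))) + 1 := by
    rw [Nat.card_eq_fintype_card]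
    exact dim_B_ge R hK
  rw [Nat.card_eq_fintype_card (α := V), Nat.card_eq_fintype_card (α := K.edgeSet)] at he
  omega

end

end Pool.Agent.U491.EF
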