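import Mathlib
import Pool.Agent.U491.EF.Dim

namespace Pool.Agent.U491.EF

open SimpleGraph Finset Module

noncomputable section
open Classical

variable {V : Type} [Fintype V] {K : SimpleGraph V}

/-- cycles of the subgraph `H` -/
def ZH (K H : SimpleGraph V) : Submodule (ZMod 2) (Ch K) where
  carrier := {a | bd K a = 0 ∧ ∀ e : K.edgeSet, e.1 ∉ H.edgeSet → a e = 0}
  add_mem' := by
    rintro a b ⟨h1, h2⟩ ⟨h3, h4⟩
    refine ⟨by rw [map_add, h1, h3, add_zero], fun e he => ?_⟩
    rw [Pi.add_apply, h2 e he, h4 e he, add_zero]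
  zero_mem' := ⟨map_zero _, fun e _ => rfl⟩
  smul_mem' := by
    rintro c a ⟨h1, h2⟩
    refine ⟨by rw [map_smul, h1, smul_zero], fun e he => ?_⟩
    rw [Pi.smul_apply, h2 e he, smul_zero]

/-- extension by zero -/
def ext0 (K H : SimpleGraph V) : (H.edgeSet → ZMod 2) →ₗ[ZMod 2] Ch K where
  toFun a e := if h : e.1 ∈ H.edgeSet then a ⟨e.1, h⟩ else 0
  map_add' a b := by
    ext e
    by_cases h : e.1 ∈ H.edgeSet
    · simp only [dif_pos h, Pi.add_apply]
    · simp only [dif_neg h, Pi.add_apply, add_zero]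
  map_smul' c a := by
    ext e
    by_cases h : e.1 ∈ H.edgeSet
    · simp only [dif_pos h, Pi.smul_apply, RingHom.id_apply]
    · simp only [dif_neg h, Pi.smul_apply, RingHom.id_apply, smul_zero]

omit [Fintype V] in
lemma ext0_pos (H : SimpleGraph V) (a : H.edgeSet → ZMod 2) (e : K.edgeSet)
    (h : e.1 ∈ H.edgeSet) : ext0 K H a e = a ⟨e.1, h⟩ := dif_pos h

omit [Fintype V] in
lemma ext0_neg (H : SimpleGraph V) (a : H.edgeSet → ZMod 2) (e : K.edgeSet)
    (h : e.1 ∉ H.edgeSet) : ext0 K H a e = 0 := dif_neg h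

omit [Fintype V] in
lemma ext0_inj {H : SimpleGraph V} (hH : H ≤ K) : Function.Injective (ext0 K H) := by
  intro a b hab
  ext ⟨e, he⟩
  have hKe : e ∈ K.edgeSet := edgeSet_mono hH he
  have := congrFun hab ⟨e, hKe⟩
  rwa [ext0_pos H a ⟨e, hKe⟩ he, ext0_pos H b ⟨e, hKe⟩ he] at this

/-- the sum of the coefficients of the boundary is zero -/
lemma sum_bd (a : Ch K) : ∑ v, bd K a v = 0 := by
  have h1 : ∑ v, bd K a v = ∑ d : K.Dart, a (ed d) := by
    simp only [bd_apply]
    rw [Finset.sum_comm]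
    refine Finset.sum_congr rfl fun d _ => ?_
    rw [Finset.sum_ite_eq, if_pos (mem_univ _)]
  rw [h1, sum_darts]
  refine Finset.sum_eq_zero fun e _ => ?_
  rw [ed_symm, z2]

lemma dim_ZH {H : SimpleGraph V} (hH : H ≤ K) (W : Finset V) (hW : ∀ u v, H.Adj u v → u ∈ W)
    (hne : W.Nonempty) :
    Fintype.card H.edgeSet + 1 ≤ finrank (ZMod 2) (ZH K H) + W.card := by
  let T : (H.edgeSet → ZMod 2) →ₗ[ZMod 2] (W → ZMod 2) :=
    { toFun := fun a w => bd K (ext0 K H a) w.1
      map_add' := fun a b => by ext w; simp only [map_add, Pi.add_apply]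
      map_smul' := fun c a => by
        ext w; simp only [map_smul, Pi.smul_apply, RingHom.id_apply] }
  have hT : ∀ a w, T a w = bd K (ext0 K H a) w.1 := fun a w => rfl
  have hout : ∀ a : H.edgeSet → ZMod 2, ∀ v ∉ W, bd K (ext0 K H a) v = 0 := by
    intro a v hv
    rw [bd_apply]
    refine Finset.sum_eq_zero fun d _ => ?_
    split_ifs with hd
    · apply ext0_neg
      intro hmem
      have : H.Adj d.fst d.snd := hmem
      exact hv (hd ▸ hW _ _ this)
    · rfl
  let S : (W → ZMod 2) →ₗ[ZMod 2] ZMod 2 :=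
    { toFun := fun f => ∑ w, f w
      map_add' := fun f g => by simp only [Pi.add_apply, Finset.sum_add_distrib]
      map_smul' := fun c f => by
        simp only [Pi.smul_apply, RingHom.id_apply, Finset.smul_sum] }
  have hS : ∀ f, S f = ∑ w, f w := fun f => rfl
  have hle : LinearMap.range T ≤ LinearMap.ker S := by
    rintro _ ⟨a, rfl⟩
    rw [LinearMap.mem_ker, hS]
    simp only [hT]
    have h1 := sum_bd (ext0 K H a)
    rw [← h1, Finset.sum_coe_sort W (fun w => bd K (ext0 K H a) w)]
    apply Finset.sum_subset (subset_univ _)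
    intro v _ hv
    exact hout a v hv
  have hSs : finrank (ZMod 2) (LinearMap.ker S) + 1 ≤ W.card := by
    have h1 := LinearMap.finrank_range_add_finrank_ker S
    rw [Module.finrank_fintype_fun_eq_card, Fintype.card_coe] at h1
    obtain ⟨w, hw⟩ := hne
    have h2 : 1 ≤ finrank (ZMod 2) (LinearMap.range S) := by
      rw [Nat.one_le_iff_ne_zero]
      intro h0
      have hb : LinearMap.range S = ⊥ := Submodule.finrank_eq_zero.1 h0
      have hm : S (Pi.single ⟨w, hw⟩ 1) ∈ LinearMap.range S := LinearMap.mem_range_self _ _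
      rw [hb, Submodule.mem_bot, hS] at hm
      rw [Finset.sum_pi_single'] at hm
      simp at hm
    omega
  have h1 := LinearMap.finrank_range_add_finrank_ker T
  rw [Module.finrank_fintype_fun_eq_card] at h1
  have h2 := Submodule.finrank_mono hle
  have h3 : finrank (ZMod 2) (LinearMap.ker T) ≤ finrank (ZMod 2) (ZH K H) := by
    have h4 : (LinearMap.ker T).map (ext0 K H) ≤ ZH K H := by
      rintro _ ⟨a, ha, rfl⟩
      refine ⟨?_, fun e he => ext0_neg H a e he⟩
      ext v
      by_cases hv : v ∈ W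
      · have : T a ⟨v, hv⟩ = 0 := by
          have := LinearMap.mem_ker.1 ha
          rw [this]; rfl
        exact this
      · exact hout a v hv
    have h5 := Submodule.finrank_mono h4
    rwa [← (Submodule.equivMapOfInjective (ext0 K H) (ext0_inj hH)
      (LinearMap.ker T)).finrank_eq] at h5
  omega

end

end Pool.Agent.U491.EF
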