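import Mathlib
import Pool.Agent.U491.EF.Sub
import Pool.Agent.H279R3.EvenSets

namespace Pool.Agent.U491.EF

open SimpleGraph Finset Module

noncomputable section
open Classical

variable {V : Type} {K : SimpleGraph V} (R : Rotation K)

/-- step relation of the regions of `H`: follow a face, or cross an edge not in `H` -/
def rstep (H : SimpleGraph V) (d e : K.Dart) : Prop :=
  e = trace R K d ∨ (¬ H.Adj d.fst d.snd ∧ e = d.symm)

/-- regions of `H` -/
abbrev rs (H : SimpleGraph V) : Setoid K.Dart := Relation.EqvGen.setoid (rstep R H)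

lemma rs_trace (H : SimpleGraph V) (d : K.Dart) : rs R H d (trace R K d) :=
  Relation.EqvGen.rel _ _ (Or.inl rfl)

lemma rs_symm (H : SimpleGraph V) (d : K.Dart) (h : ¬ H.Adj d.fst d.snd) : rs R H d d.symm :=
  Relation.EqvGen.rel _ _ (Or.inr ⟨h, rfl⟩)

/-- a boundary supported in `H` is a union of region boundaries -/
lemma exists_region_fn {H : SimpleGraph V} (x : Quotient (fs R) → ZMod 2)
    (hx : ∀ e : K.edgeSet, e.1 ∉ H.edgeSet → cd (fs R) x e = 0) :
    ∃ y : Quotient (rs R H) → ZMod 2, ∀ d : K.Dart,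
      y (Quotient.mk _ d) = x (Quotient.mk (fs R) d) := by
  refine ⟨Quotient.lift (fun d => x (Quotient.mk (fs R) d)) ?_, fun d => rfl⟩
  intro a b hab
  have hab' : Relation.EqvGen (rstep R H) a b := hab
  induction hab' with
  | rel a b h =>
    rcases h with rfl | ⟨h, rfl⟩
    · show x (Quotient.mk (fs R) a) = x (Quotient.mk (fs R) _)
      congr 1
      exact Quotient.sound (fs_trace R a)
    · have h1 := hx (ed a) h
      rw [cd_ed] at h1
      show x (Quotient.mk (fs R) a) = x (Quotient.mk (fs R) a.symm)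
      linear_combination h1 - z2 (x (Quotient.mk (fs R) a.symm))
  | refl a => rfl
  | symm a b _ ih => exact (ih ‹_›).symm
  | trans a b c _ _ ih1 ih2 => exact (ih1 ‹_›).trans (ih2 ‹_›)

variable [Fintype V]

lemma inf_le_range {H : SimpleGraph V} :
    ZH K H ⊓ LinearMap.range (cd (fs R)) ≤ LinearMap.range (cd (rs R H)) := by
  rintro _ ⟨⟨_, h2⟩, x, rfl⟩
  obtain ⟨y, hy⟩ := exists_region_fn R (H := H) x h2
  refine ⟨y, ?_⟩
  ext e
  obtain ⟨d, rfl⟩ := exists_dart e
  rw [cd_ed, cd_ed, hy, hy]

lemma dim_range_rs (H : SimpleGraph V) (d0 : K.Dart) :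
    finrank (ZMod 2) (LinearMap.range (cd (rs R H))) + 1 ≤ Fintype.card (Quotient (rs R H)) := by
  have h1 := LinearMap.finrank_range_add_finrank_ker (cd (rs R H))
  rw [Module.finrank_fintype_fun_eq_card] at h1
  have h2 : 1 ≤ finrank (ZMod 2) (LinearMap.ker (cd (rs R H))) := by
    rw [Nat.one_le_iff_ne_zero]
    intro h0
    have hb : LinearMap.ker (cd (rs R H)) = ⊥ := Submodule.finrank_eq_zero.1 h0
    have hm : (1 : Quotient (rs R H) → ZMod 2) ∈ LinearMap.ker (cd (rs R H)) := by
      rw [LinearMap.mem_ker]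
      ext e
      exact z2 1
    rw [hb, Submodule.mem_bot] at hm
    have := congrFun hm (Quotient.mk _ d0)
    simp at this
  omega

/-- Euler's inequality for the subgraph `H` -/
lemma euler_sub {g : ℕ} (hg : HasGenus R g) {H : SimpleGraph V} (hH : H ≤ K) (W : Finset V)
    (hW : ∀ u v, H.Adj u v → u ∈ W) (hne : W.Nonempty) (d0 : K.Dart) :
    Fintype.card H.edgeSet + 2 ≤ W.card + Fintype.card (Quotient (rs R H)) + 2 * g := by
  have h1 := dim_ZH hH W hW hne
  have h2 := dim_range_rs R H d0
  have h3 := Submodule.finrank_mono (inf_le_range R (H := H))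
  have h4 := Submodule.finrank_sup_add_finrank_inf_eq (ZH K H) (LinearMap.range (cd (fs R)))
  have h5 : ZH K H ⊔ LinearMap.range (cd (fs R)) ≤ LinearMap.ker (bd K) :=
    sup_le (fun a ha => ha.1) (cd_mem_Z R _ (fs_trace R))
  have h6 := Submodule.finrank_mono h5
  have h7 := dim_homology R hg
  omega

/-- Euler's inequality for the subgraph `H` with all cycles null-homologous -/
lemma euler_sub_planar {H : SimpleGraph V} (hH : H ≤ K) (W : Finset V)
    (hW : ∀ u v, H.Adj u v → u ∈ W) (hne : W.Nonempty) (d0 : K.Dart)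
    (hnull : ZH K H ≤ LinearMap.range (cd (fs R))) :
    Fintype.card H.edgeSet + 2 ≤ W.card + Fintype.card (Quotient (rs R H)) := by
  have h1 := dim_ZH hH W hW hne
  have h2 := dim_range_rs R H d0
  have h3 := Submodule.finrank_mono ((le_inf le_rfl hnull).trans (inf_le_range R (H := H)))
  omega

/-- the edge set of a 1-chain -/
def supp (a : Ch K) : Set (Sym2 V) := {e | ∃ h : e ∈ K.edgeSet, a ⟨e, h⟩ ≠ 0}

omit [Fintype V] in
lemma mem_supp (a : Ch K) (e : K.edgeSet) : e.1 ∈ supp a ↔ a e ≠ 0 :=
  ⟨fun ⟨_, h⟩ => h, fun h => ⟨e.2, h⟩⟩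

omit [Fintype V] in
lemma z2_cases (a : ZMod 2) : a = 0 ∨ a = 1 := by
  fin_cases a
  · exact Or.inl rfl
  · exact Or.inr rfl

omit [Fintype V] in
lemma z2_ne (a : ZMod 2) : a ≠ 0 ↔ a = 1 := by
  rcases z2_cases a with h | h <;> rw [h] <;> simp

lemma supp_even {H : SimpleGraph V} {a : Ch K} (ha : a ∈ ZH K H) :
    H279R3.EvenSet H (supp a) := by
  constructor
  · rintro e ⟨h, he⟩
    by_contra hne
    exact he (ha.2 ⟨e, h⟩ hne)
  · intro v
    have h1 : bd K a v = 0 := congrFun ha.1 v
    rw [bd_apply] at h1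
    have h2 : (∑ d : K.Dart, if d.fst = v then a (ed d) else 0)
        = ((univ.filter fun d : K.Dart => d.fst = v ∧ a (ed d) = 1).card : ZMod 2) := by
      rw [Finset.card_filter, Nat.cast_sum]
      refine Finset.sum_congr rfl fun d _ => ?_
      by_cases hd : d.fst = v
      · rcases z2_cases (a (ed d)) with h | h
        · rw [if_pos hd, h]; simp
        · rw [if_pos hd, h]; simp [hd]
      · rw [if_neg hd]; simp [hd]
    rw [h2] at h1
    rw [H279R3.even_iff_zmod]
    have h3 : (supp a ∩ {e | v ∈ e}).ncard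
        = (univ.filter fun d : K.Dart => d.fst = v ∧ a (ed d) = 1).card := by
      rw [← Set.ncard_coe_finset]
      symm
      refine Set.ncard_congr (fun d _ => d.edge) ?_ ?_ ?_
      · intro d hd
        simp only [coe_filter, mem_univ, true_and, Set.mem_ofPred_eq] at hd
        refine ⟨(mem_supp a (ed d)).2 ((z2_ne _).2 hd.2), ?_⟩
        show v ∈ d.edge
        rw [← hd.1]
        exact Sym2.mem_mk_left _ _
      · intro d d' hd hd' h
        simp only [coe_filter, mem_univ, true_and, Set.mem_ofPred_eq] at hd hd'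
        rcases (dart_edge_eq_iff d d').1 h with h | h
        · exact h
        · exfalso
          have h4 : d'.snd = v := by
            have : d.fst = d'.snd := by rw [h]; rfl
            rw [← this, hd.1]
          exact d'.adj.ne (hd'.1.trans h4.symm)
      · rintro e ⟨⟨he, hae⟩, hve⟩
        obtain ⟨d, hd⟩ := exists_dart (⟨e, he⟩ : K.edgeSet)
        have hde : d.edge = e := congrArg Subtype.val hd
        have hv : v = d.fst ∨ v = d.snd := by
          have : v ∈ d.edge := by rw [hde]; exact hve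
          exact Sym2.mem_iff.1 this
        rcases hv with hv | hv
        · refine ⟨d, ?_, hde⟩
          simp only [coe_filter, mem_univ, true_and, Set.mem_ofPred_eq]
          exact ⟨hv.symm, by rw [hd]; exact (z2_ne _).1 hae⟩
        · refine ⟨d.symm, ?_, by rw [d.edge_symm]; exact hde⟩
          simp only [coe_filter, mem_univ, true_and, Set.mem_ofPred_eq]
          exact ⟨hv.symm, by rw [ed_symm, hd]; exact (z2_ne _).1 hae⟩
    rw [h3, h1]

end

end Pool.Agent.U491.EF
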