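import Mathlib
import Pool.Agent.U491.EF.Reg

namespace Pool.Agent.U491.EF

open SimpleGraph Finset Module

noncomputable section
open Classical

variable {V : Type} {K : SimpleGraph V} (R : Rotation K)

lemma wc_apply {u v : V} (p : K.Walk u v) (e : K.edgeSet) :
    wc p e = (p.edges.count e.1 : ZMod 2) := by
  induction p with
  | nil => simp
  | @cons a b c h p ih =>
    rw [wc_cons, Pi.add_apply, ih, Walk.edges_cons, List.count_cons]
    by_cases he : e = ed ⟨(a, b), h⟩
    · rw [he, Pi.single_eq_same]
      have : (s(a, b) == (ed (⟨(a, b), h⟩ : K.Dart)).1) = true := by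
        rw [beq_iff_eq]; rfl
      rw [this]
      push_cast
      simp [add_comm]
    · rw [Pi.single_eq_of_ne he]
      have : (s(a, b) == e.1) = false := by
        rw [beq_eq_false_iff_ne]
        intro h'
        exact he (Subtype.ext h'.symm)
      rw [this]
      simp

lemma wc_trail {u v : V} {p : K.Walk u v} (hp : p.IsTrail) (e : K.edgeSet) :
    wc p e = if e.1 ∈ p.edges then 1 else 0 := by
  rw [wc_apply]
  split_ifs with h
  · rw [List.count_eq_one_of_mem hp.edges_nodup h, Nat.cast_one]
  · rw [List.count_eq_zero_of_not_mem h, Nat.cast_zero]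

variable [Fintype V]

lemma sum_wc {u v : V} (p : K.Walk u v) : ∑ e, wc p e = (p.length : ZMod 2) := by
  induction p with
  | nil => simp
  | @cons a b c h p ih =>
    rw [wc_cons]
    simp only [Pi.add_apply]
    rw [Finset.sum_add_distrib, ih, Finset.sum_pi_single', if_pos (mem_univ _), Walk.length_cons]
    push_cast
    ring

lemma mem_periodic (φ : Equiv.Perm K.Dart) (d : K.Dart) : d ∈ Function.periodicPts φ := by
  rw [Function.mem_periodicPts]
  refine ⟨orderOf φ, orderOf_pos φ, ?_⟩
  show φ^[orderOf φ] d = d
  rw [← Equiv.Perm.coe_pow, pow_orderOf_eq_one]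
  rfl

lemma wc_facial {v : V} (f : K.Walk v v) (hf : IsFacial R f) :
    wc f ∈ LinearMap.range (cd (fs R)) := by
  obtain ⟨d, hd⟩ := hf
  set φ := trace R K with hφ
  have hnd : f.darts.Nodup := by
    have := Function.nodup_periodicOrbit (f := (φ : K.Dart → K.Dart)) (x := d)
    rw [Function.periodicOrbit_def, Cycle.nodup_coe_iff] at this
    rw [hd]; exact this
  have hmem : ∀ e, e ∈ f.darts ↔ φ.SameCycle d e := by
    intro e
    have h1 := Function.mem_periodicOrbit_iff (f := (φ : K.Dart → K.Dart)) (x := d) (y := e)
      (mem_periodic φ d)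
    rw [Function.periodicOrbit_def, Cycle.mem_coe_iff] at h1
    rw [hd, h1]
    constructor
    · rintro ⟨n, hn⟩
      refine ⟨n, ?_⟩
      rw [zpow_natCast, Equiv.Perm.coe_pow]
      exact hn
    · intro h
      obtain ⟨n, hn⟩ := h.exists_nat_pow_eq
      exact ⟨n, by rw [← Equiv.Perm.coe_pow]; exact hn⟩
  refine ⟨Pi.single (Quotient.mk _ d) 1, ?_⟩
  ext e
  obtain ⟨e, rfl⟩ := exists_dart e
  rw [cd_ed]
  have hw : wc f = ∑ x ∈ f.darts.toFinset, (Pi.single (ed x) (1 : ZMod 2) : Ch K) := by
    unfold wc
    rw [List.sum_toFinset _ hnd]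
  rw [hw, Finset.sum_apply]
  have h1 : ∀ x : K.Dart, (Pi.single (ed x) (1 : ZMod 2) : Ch K) (ed e)
      = (if x = e then 1 else 0) + (if x = e.symm then 1 else 0) := by
    intro x
    by_cases h : ed x = ed e
    · rw [h, Pi.single_eq_same]
      rcases ed_eq.1 h with rfl | rfl
      · rw [if_pos rfl, if_neg (dart_ne_symm _), add_zero]
      · rw [if_neg (Ne.symm (dart_ne_symm e)), if_pos rfl, zero_add]
    · have e1 : ¬ x = e := fun h' => h (by rw [h'])
      have e2 : ¬ x = e.symm := fun h' => h (by rw [h', ed_symm])
      rw [Pi.single_eq_of_ne (Ne.symm h), if_neg e1, if_neg e2, add_zero]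
  rw [Finset.sum_congr rfl fun x _ => h1 x, Finset.sum_add_distrib, Finset.sum_ite_eq',
    Finset.sum_ite_eq', Pi.single_apply, Pi.single_apply]
  have h2 : ∀ x : K.Dart, (Quotient.mk (fs R) x = Quotient.mk (fs R) d) ↔ x ∈ f.darts.toFinset := by
    intro x
    rw [List.mem_toFinset, hmem, Quotient.eq]
    exact ⟨fun h => Equiv.Perm.SameCycle.symm h, fun h => Equiv.Perm.SameCycle.symm h⟩
  congr 1
  · exact if_congr (h2 e) rfl rfl
  · exact if_congr (h2 e.symm) rfl rfl

/-- homotopic walks are homologous mod 2 -/
lemma wc_homotopic {u v : V} {p q : K.Walk u v} (h : Homotopic R p q) :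
    wc p + wc q ∈ LinearMap.range (cd (fs R)) := by
  induction h with
  | refl p =>
    have : wc p + wc p = 0 := by ext e; exact z2 _
    rw [this]; exact Submodule.zero_mem _
  | symm _ ih => rw [add_comm]; exact ih
  | @trans v p q r _ _ ih1 ih2 =>
    have : wc p + wc r = (wc p + wc q) + (wc q + wc r) := by
      ext e
      simp only [Pi.add_apply]
      linear_combination - z2 (wc q e)
    rw [this]
    exact Submodule.add_mem _ ih1 ih2
  | spur p h q =>
    have : wc (p.append (Walk.cons h (Walk.cons h.symm q))) + wc (p.append q) = 0 := by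
      have hs : ed (⟨(_, _), h.symm⟩ : K.Dart) = ed (⟨(_, _), h⟩ : K.Dart) :=
        ed_symm (⟨(_, _), h⟩ : K.Dart)
      rw [wc_append, wc_append, wc_cons, wc_cons, hs]
      ext e
      simp only [Pi.add_apply, Pi.zero_apply]
      linear_combination z2 (wc p e) + z2 (wc q e)
        + z2 ((Pi.single (ed (⟨(_, _), h⟩ : K.Dart)) 1 : Ch K) e)
    rw [this]; exact Submodule.zero_mem _
  | face p f q hf =>
    have : wc (p.append (f.append q)) + wc (p.append q) = wc f := by
      rw [wc_append, wc_append, wc_append]
      ext e
      simp only [Pi.add_apply]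
      linear_combination z2 (wc p e) + z2 (wc q e)
    rw [this]; exact wc_facial R f hf

lemma wc_contractible {v : V} {c : K.Walk v v} (h : Contractible R c) :
    wc c ∈ LinearMap.range (cd (fs R)) := by
  have := wc_homotopic R h
  rwa [wc_nil, add_zero] at this

/-- if all cycles of `H` bound, all even sets of edges of `H` do -/
lemma ZH_le_B {H : SimpleGraph V} (hH : H ≤ K)
    (hc : ∀ (v : V) (c : H.Walk v v), c.IsCycle →
      wc (c.mapLe hH) ∈ LinearMap.range (cd (fs R))) :
    ZH K H ≤ LinearMap.range (cd (fs R)) := by
  have key : ∀ (n : ℕ) (a : Ch K), a ∈ ZH K H → (supp a).ncard = n →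
      a ∈ LinearMap.range (cd (fs R)) := by
    intro n
    induction n using Nat.strong_induction_on with
    | _ n ih =>
      intro a ha hn
      have hfin : (supp a).Finite := Set.toFinite _
      rcases (supp a).eq_empty_or_nonempty with he | hne
      · have : a = 0 := by
          ext e
          by_contra h0
          have := (mem_supp a e).2 h0
          rw [he] at this
          exact this
        rw [this]; exact Submodule.zero_mem _
      · obtain ⟨v, c, hcyc, hsub⟩ := (supp_even ha).exists_cycle hfin hne
        have hb := hc v c hcyc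
        set b := wc (c.mapLe hH) with hbdef
        have hbv : ∀ e : K.edgeSet, b e = if e.1 ∈ c.edges then 1 else 0 := by
          intro e
          rw [hbdef, wc_trail ((hcyc.mapLe hH).isTrail)]
          rw [Walk.edges_mapLe_eq_edges]
        have hbZ : b ∈ ZH K H := by
          refine ⟨?_, fun e he => ?_⟩
          · rw [hbdef, bd_wc]
            ext x; exact z2 _
          · rw [hbv, if_neg]
            intro h
            exact he (c.edges_subset_edgeSet h)
        have hsupp : supp (a + b) = supp a \ {e | e ∈ c.edges} := by
          ext e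
          constructor
          · rintro ⟨h, hne⟩
            rw [Pi.add_apply] at hne
            by_cases hec : e ∈ c.edges
            · exfalso
              have h1 := hsub e hec
              have h2 : a ⟨e, h⟩ = 1 := (z2_ne _).1 ((mem_supp a ⟨e, h⟩).1 h1)
              rw [h2, hbv, if_pos hec] at hne
              exact hne (z2 1)
            · rw [hbv, if_neg hec, add_zero] at hne
              exact ⟨⟨h, hne⟩, hec⟩
          · rintro ⟨⟨h, hne⟩, hec⟩
            refine ⟨h, ?_⟩
            have hec' : e ∉ c.edges := hec
            rw [Pi.add_apply, hbv, if_neg hec', add_zero]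
            exact hne
        have hlt : (supp (a + b)).ncard < (supp a).ncard := by
          apply Set.ncard_lt_ncard _ hfin
          rw [hsupp]
          refine ⟨Set.sdiff_subset, fun hcon => ?_⟩
          have h3 := hcyc.three_le_length
          have hex : ∃ e, e ∈ c.edges := by
            apply List.exists_mem_of_length_pos
            rw [Walk.length_edges]; omega
          obtain ⟨e, he⟩ := hex
          exact (hcon (hsub e he)).2 he
        have hab := ih _ (hn ▸ hlt) (a + b) (Submodule.add_mem _ ha hbZ) rfl
        have : a = (a + b) + b := by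
          ext e
          simp only [Pi.add_apply]
          linear_combination - z2 (b e)
        rw [this]
        exact Submodule.add_mem _ hab hb
  exact fun a ha => key _ a ha rfl

/-- in an even-faced subgraph every null-homologous chain is even -/
lemma parity {G : SimpleGraph V} (hG : EvenFaced R G) (x : Quotient (fs R) → ZMod 2)
    (hx : ∀ e : K.edgeSet, e.1 ∉ G.edgeSet → cd (fs R) x e = 0) :
    ∑ e, cd (fs R) x e = 0 := by
  set X : K.Dart → ZMod 2 := fun d => x (Quotient.mk (fs R) d) with hX
  set g : K.Dart → ZMod 2 := fun d => if G.Adj d.fst d.snd then X d else 0 with hg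
  have h1 : ∑ e, cd (fs R) x e = ∑ d, g d := by
    rw [sum_darts]
    refine Finset.sum_congr rfl fun e _ => ?_
    obtain ⟨d, hd⟩ : ∃ d, d = ori e := ⟨_, rfl⟩
    rw [← hd]
    have hed : e = ed d := by rw [hd, ed_ori]
    by_cases h : G.Adj d.fst d.snd
    · have h' : G.Adj d.symm.fst d.symm.snd := h.symm
      rw [hg]
      simp only
      rw [if_pos h, if_pos h', hed, cd_ed]
    · have h' : ¬ G.Adj d.symm.fst d.symm.snd := fun h2 => h h2.symm
      rw [hg]
      simp only
      rw [if_neg h, if_neg h', add_zero]
      apply hx
      intro hmem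
      apply h
      have : d.edge ∈ G.edgeSet := by rw [hed] at hmem; exact hmem
      exact this
  have hnext : ∀ d : K.Dart, X (R.next d) = X d.symm := by
    intro d
    have : trace R K d.symm = R.next d := by rw [trace_self, Dart.symm_symm]
    rw [← this]
    exact (congrArg x (Quotient.sound (fs_trace R d.symm))).symm
  have hT : ∀ d : K.Dart, X (trace R G d) = X d := by
    intro d
    have ht : trace R G d = R.next (flip K G d) := rfl
    rw [ht, hnext]
    unfold flip
    split_ifs with h
    · rw [Dart.symm_symm]
    · have h0 := hx (ed d) h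
      rw [cd_ed] at h0
      show x (Quotient.mk (fs R) d.symm) = x (Quotient.mk (fs R) d)
      linear_combination h0 - z2 (x (Quotient.mk (fs R) d))
  have hpow : ∀ (n : ℕ) (d : K.Dart), X ((trace R G ^ n) d) = X d := by
    intro n
    induction n with
    | zero => intro d; simp
    | succ n ih => intro d; rw [pow_succ', Equiv.Perm.mul_apply, hT, ih]
  rw [h1, ← Finset.sum_fiberwise (univ : Finset K.Dart)
    (fun d => Quotient.mk (Equiv.Perm.SameCycle.setoid (trace R G)) d) g]
  refine Finset.sum_eq_zero fun q _ => ?_
  induction q using Quotient.ind with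
  | _ d0 =>
    have h2 : ∀ d ∈ univ.filter (fun d => Quotient.mk (Equiv.Perm.SameCycle.setoid (trace R G)) d
        = Quotient.mk _ d0), g d = if G.Adj d.fst d.snd then X d0 else 0 := by
      intro d hd
      simp only [mem_filter, mem_univ, true_and] at hd
      have hs : (trace R G).SameCycle d0 d := Equiv.Perm.SameCycle.symm (Quotient.exact hd)
      obtain ⟨n, hn⟩ := hs.exists_nat_pow_eq
      have : X d = X d0 := by rw [← hn, hpow]
      rw [hg]
      simp only
      rw [this]
    rw [Finset.sum_congr rfl h2, ← Finset.sum_filter, Finset.sum_const, Finset.filter_filter,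
      nsmul_eq_mul]
    have h3 := hG d0
    rw [Nat.card_eq_fintype_card, Fintype.card_subtype] at h3
    have h4 : (univ.filter fun d : K.Dart =>
        Quotient.mk (Equiv.Perm.SameCycle.setoid (trace R G)) d = Quotient.mk _ d0
          ∧ G.Adj d.fst d.snd)
        = univ.filter fun d : K.Dart => (trace R G).SameCycle d0 d ∧ G.Adj d.fst d.snd := by
      ext d
      simp only [mem_filter, mem_univ, true_and, and_congr_left_iff]
      intro _
      rw [Quotient.eq]
      exact ⟨fun h => Equiv.Perm.SameCycle.symm h, fun h => Equiv.Perm.SameCycle.symm h⟩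
    rw [h4, (ZMod.natCast_eq_zero_iff_even).2 h3, zero_mul]

end

end Pool.Agent.U491.EF
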