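import Mathlib
import Pool.Agent.U491.EF.Null

namespace Pool.Agent.U491.EF

open SimpleGraph Finset Module

noncomputable section
open Classical

variable {V : Type}

/-- a nonempty even set has a second edge at each of its vertices -/
lemma second_edge {H : SimpleGraph V} {F : Set (Sym2 V)} (hF : H279R3.EvenSet H F)
    {x y : V} (hxy : s(x, y) ∈ F) : ∃ y', y' ≠ y ∧ s(x, y') ∈ F := by
  by_contra hcon
  push Not at hcon
  have h1 : F ∩ {e | x ∈ e} = {s(x, y)} := by
    ext e
    constructor
    · rintro ⟨he, hx⟩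
      obtain ⟨z, rfl⟩ := hx
      by_cases hz : z = y
      · rw [hz]; rfl
      · exact absurd he (hcon z hz)
    · rintro rfl
      exact ⟨hxy, Sym2.mem_mk_left _ _⟩
  have h2 := hF.2 x
  rw [h1, Set.ncard_singleton] at h2
  exact absurd h2 (by decide)

lemma four_cycle {H : SimpleGraph V} (htri : ∀ a b c, H.Adj a b → H.Adj b c → ¬ H.Adj a c)
    {F : Set (Sym2 V)} (hF : H279R3.EvenSet H F) (hfin : F.Finite) (hne : F.Nonempty) :
    4 ≤ F.ncard ∧ (F.ncard = 4 → ∃ a b c d, s(a, b) ∈ F ∧ s(b, c) ∈ F ∧ s(c, d) ∈ F ∧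
      s(d, a) ∈ F ∧ a ≠ c ∧ b ≠ d) := by
  obtain ⟨e, he⟩ := hne
  induction e using Sym2.ind with
  | _ u v =>
    have hadj : ∀ {x y : V}, s(x, y) ∈ F → H.Adj x y := fun h => hF.1 h
    obtain ⟨u', hu', hu'F⟩ := second_edge hF he
    have hvu : s(v, u) ∈ F := by rw [Sym2.eq_swap]; exact he
    obtain ⟨v', hv', hv'F⟩ := second_edge hF hvu
    have hu'u : s(u', u) ∈ F := by rw [Sym2.eq_swap]; exact hu'F
    obtain ⟨w, hw, hwF⟩ := second_edge hF hu'u
    have n1 : u ≠ v := (hadj he).ne
    have n2 : u ≠ u' := (hadj hu'F).ne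
    have n3 : v ≠ v' := (hadj hv'F).ne
    have n4 : u' ≠ w := (hadj hwF).ne
    have n5 : u' ≠ v' := by
      intro h
      subst h
      exact htri u v u' (hadj he) (hadj hv'F) (hadj hu'F)
    have d12 : s(u, v) ≠ s(u, u') := by
      rw [Ne, Sym2.eq_iff]; rintro (⟨_, h⟩ | ⟨h, h2⟩)
      · exact hu' h.symm
      · exact n2 h
    have d13 : s(u, v) ≠ s(v, v') := by
      rw [Ne, Sym2.eq_iff]; rintro (⟨h, _⟩ | ⟨h, h2⟩)
      · exact n1 h
      · exact hv' h.symm
    have d14 : s(u, v) ≠ s(u', w) := by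
      rw [Ne, Sym2.eq_iff]; rintro (⟨h, _⟩ | ⟨h, h2⟩)
      · exact n2 h
      · exact hw h.symm
    have d23 : s(u, u') ≠ s(v, v') := by
      rw [Ne, Sym2.eq_iff]; rintro (⟨h, _⟩ | ⟨h, h2⟩)
      · exact n1 h
      · exact hv' h.symm
    have d24 : s(u, u') ≠ s(u', w) := by
      rw [Ne, Sym2.eq_iff]; rintro (⟨h, _⟩ | ⟨h, h2⟩)
      · exact n2 h
      · exact hw h.symm
    have d34 : s(v, v') ≠ s(u', w) := by
      rw [Ne, Sym2.eq_iff]; rintro (⟨h, _⟩ | ⟨h, h2⟩)
      · exact hu' h.symm
      · exact n5 h2.symm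
    let T : Finset (Sym2 V) := {s(u, v), s(u, u'), s(v, v'), s(u', w)}
    have hTc : T.card = 4 := by
      rw [Finset.card_insert_of_notMem, Finset.card_insert_of_notMem,
        Finset.card_insert_of_notMem, Finset.card_singleton]
      · simpa using d34
      · simp only [mem_insert, mem_singleton, not_or]; exact ⟨d23, d24⟩
      · simp only [mem_insert, mem_singleton, not_or]; exact ⟨d12, d13, d14⟩
    have hTF : (T : Set (Sym2 V)) ⊆ F := by
      intro x hx
      simp only [T, coe_insert, coe_singleton, Set.mem_insert_iff, Set.mem_singleton_iff] at hx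
      rcases hx with rfl | rfl | rfl | rfl
      · exact he
      · exact hu'F
      · exact hv'F
      · exact hwF
    have h4 : 4 ≤ F.ncard := by
      rw [← hTc, ← Set.ncard_coe_finset]
      exact Set.ncard_le_ncard hTF hfin
    refine ⟨h4, fun h => ?_⟩
    have hFT : (T : Set (Sym2 V)) = F := by
      apply Set.eq_of_subset_of_ncard_le hTF _ hfin
      rw [Set.ncard_coe_finset, hTc, h]
    have hv'v : s(v', v) ∈ F := by rw [Sym2.eq_swap]; exact hv'F
    obtain ⟨x, hx, hxF⟩ := second_edge hF hv'v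
    rw [← hFT] at hxF
    simp only [T, coe_insert, coe_singleton, Set.mem_insert_iff, Set.mem_singleton_iff,
      Sym2.eq_iff] at hxF
    refine ⟨u, v, v', u', he, hv'F, ?_, hu'u, fun h => hv' h.symm, fun h => hu' h.symm⟩
    rcases hxF with (⟨h1, h2⟩ | ⟨h1, h2⟩) | (⟨h1, h2⟩ | ⟨h1, h2⟩) | (⟨h1, h2⟩ | ⟨h1, h2⟩) |
      (⟨h1, h2⟩ | ⟨h1, h2⟩)
    · exact absurd h1 hv'
    · exact absurd h1 n3.symm
    · exact absurd h1 hv'
    · exact absurd h1 n5.symm
    · exact absurd h1 n3.symm
    · exact absurd h2 hx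
    · exact absurd h1 n5.symm
    · rw [h1, Sym2.eq_swap]; exact hwF

variable [Fintype V] {K : SimpleGraph V} (R : Rotation K)

/-- darts of `H` -/
def DH (K H : SimpleGraph V) : Finset K.Dart := univ.filter fun d => H.Adj d.fst d.snd

lemma mem_DH {H : SimpleGraph V} {d : K.Dart} : d ∈ DH K H ↔ H.Adj d.fst d.snd := by
  unfold DH; simp

lemma card_DH {H : SimpleGraph V} (hH : H ≤ K) :
    (DH K H).card = 2 * Fintype.card H.edgeSet := by
  have h1 : (DH K H).card = ∑ d : K.Dart, if H.Adj d.fst d.snd then 1 else 0 := by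
    unfold DH; rw [Finset.card_filter]
  have h2 : (univ.filter fun e : K.edgeSet => e.1 ∈ H.edgeSet).card
      = Fintype.card H.edgeSet := by
    rw [← Finset.card_univ]
    symm
    refine Finset.card_bij (fun e _ => (⟨e.1, edgeSet_mono hH e.2⟩ : K.edgeSet)) ?_ ?_ ?_
    · intro e _; simp
    · intro a _ b _ h
      exact Subtype.ext (by simpa using h)
    · intro e he
      simp only [mem_filter, mem_univ, true_and] at he
      exact ⟨⟨e.1, he⟩, mem_univ _, rfl⟩
  rw [h1, sum_darts, ← h2, Finset.card_filter, Finset.mul_sum]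
  refine Finset.sum_congr rfl fun e _ => ?_
  obtain ⟨d, hd⟩ : ∃ d, d = ori e := ⟨_, rfl⟩
  rw [← hd]
  have hed : e = ed d := by rw [hd, ed_ori]
  have hiff : H.Adj d.fst d.snd ↔ e.1 ∈ H.edgeSet := by
    rw [hed]; rfl
  have hiff' : H.Adj d.symm.fst d.symm.snd ↔ e.1 ∈ H.edgeSet := by
    rw [← hiff]; exact ⟨fun h => h.symm, fun h => h.symm⟩
  rw [if_congr hiff rfl rfl, if_congr hiff' rfl rfl]
  split_ifs <;> rfl

/-- darts of `H` on the boundary of the region `q` -/
def side (H : SimpleGraph V) (q : Quotient (rs R H)) : Finset K.Dart :=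
  (DH K H).filter fun d => Quotient.mk (rs R H) d = q

lemma sum_side (H : SimpleGraph V) : ∑ q, (side R H q).card = (DH K H).card := by
  rw [Finset.card_eq_sum_card_fiberwise (f := fun d => Quotient.mk (rs R H) d)
    (t := univ) (fun d _ => mem_univ _)]
  rfl

/-- boundary of a region -/
def rb (H : SimpleGraph V) (q : Quotient (rs R H)) : Ch K := cd (rs R H) (Pi.single q 1)

lemma rb_mem (H : SimpleGraph V) (q : Quotient (rs R H)) : rb R H q ∈ ZH K H := by
  refine ⟨bd_cd R _ (rs_trace R H) _, fun e he => ?_⟩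
  obtain ⟨d, rfl⟩ := exists_dart e
  unfold rb
  rw [cd_ed]
  have : Quotient.mk (rs R H) d = Quotient.mk (rs R H) d.symm :=
    Quotient.sound (rs_symm R H d he)
  rw [this, z2]

lemma supp_rb {H : SimpleGraph V} (q : Quotient (rs R H)) {e : Sym2 V} (he : e ∈ supp (rb R H q)) :
    ∃ d ∈ side R H q, d.edge = e := by
  have heH := (supp_even (rb_mem R H q)).1 he
  obtain ⟨hK, hne⟩ := he
  obtain ⟨d, hd⟩ := exists_dart (⟨e, hK⟩ : K.edgeSet)
  have hde : d.edge = e := congrArg Subtype.val hd
  have hdH : H.Adj d.fst d.snd := by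
    have : d.edge ∈ H.edgeSet := by rw [hde]; exact heH
    exact this
  rw [← hd] at hne
  unfold rb at hne
  rw [cd_ed] at hne
  by_cases h1 : Quotient.mk (rs R H) d = q
  · exact ⟨d, by unfold side; rw [mem_filter, mem_DH]; exact ⟨hdH, h1⟩, hde⟩
  · by_cases h2 : Quotient.mk (rs R H) d.symm = q
    · refine ⟨d.symm, ?_, by rw [d.edge_symm]; exact hde⟩
      unfold side; rw [mem_filter, mem_DH]; exact ⟨hdH.symm, h2⟩
    · rw [Pi.single_eq_of_ne h1, Pi.single_eq_of_ne h2] at hne
      exact absurd rfl hne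

/-- every region of a triangle-free subgraph has at least four sides, and if it has exactly four
sides they form a 4-cycle -/
lemma region_size (hK : K.Connected) {H : SimpleGraph V} (hD : 5 ≤ (DH K H).card)
    (htri : ∀ a b c, H.Adj a b → H.Adj b c → ¬ H.Adj a c) (q : Quotient (rs R H)) :
    4 ≤ (side R H q).card ∧ ((side R H q).card = 4 → ∃ a b c d,
      s(a, b) ∈ supp (rb R H q) ∧ s(b, c) ∈ supp (rb R H q) ∧ s(c, d) ∈ supp (rb R H q) ∧
      s(d, a) ∈ supp (rb R H q) ∧ a ≠ c ∧ b ≠ d) := by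
  by_cases h0 : rb R H q = 0
  · have hall : ∀ d : K.Dart, Quotient.mk (rs R H) d = q := by
      intro d
      induction q using Quotient.ind with
      | _ d0 =>
        have h1 := const_of_ker R hK (rs R H) (rs_trace R H) (Pi.single (Quotient.mk _ d0) 1) h0
          d d0
        rw [Pi.single_eq_same] at h1
        by_contra hne
        rw [Pi.single_eq_of_ne hne] at h1
        exact absurd h1 (by decide)
    have : side R H q = DH K H := by
      unfold side
      rw [Finset.filter_true_of_mem]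
      intro d _; exact hall d
    rw [this]
    exact ⟨by omega, fun h => by omega⟩
  · have hfin : (supp (rb R H q)).Finite := Set.toFinite _
    have hne : (supp (rb R H q)).Nonempty := by
      rw [Set.nonempty_iff_ne_empty]
      intro he
      apply h0
      ext e
      by_contra h
      have := (mem_supp (rb R H q) e).2 h
      rw [he] at this
      exact this
    obtain ⟨h4, hc⟩ := four_cycle htri (supp_even (rb_mem R H q)) hfin hne
    have hle : (supp (rb R H q)).ncard ≤ (side R H q).card := by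
      have hsub : supp (rb R H q) ⊆ ((side R H q).image Dart.edge : Finset (Sym2 V)) := by
        intro e he
        obtain ⟨d, hd, hde⟩ := supp_rb R q he
        rw [coe_image]
        exact ⟨d, hd, hde⟩
      calc (supp (rb R H q)).ncard
          ≤ (((side R H q).image Dart.edge : Finset (Sym2 V)) : Set (Sym2 V)).ncard :=
            Set.ncard_le_ncard hsub (Finset.finite_toSet _)
        _ = ((side R H q).image Dart.edge).card := Set.ncard_coe_finset _
        _ ≤ _ := Finset.card_image_le
    exact ⟨by omega, fun h => hc (by omega)⟩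

end

end Pool.Agent.U491.EF
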