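import Mathlib
import Pool.Agent.U491.EF.Cnt

namespace Pool.Agent.U491.EF

open SimpleGraph Finset Module

noncomputable section
open Classical

variable {V : Type} [Fintype V] {K : SimpleGraph V} (R : Rotation K)

/-- degree in `H`, counted by darts -/
def dg (K H : SimpleGraph V) (v : V) : ℕ := ((DH K H).filter fun d => d.fst = v).card

lemma sum_dg {H : SimpleGraph V} (W : Finset V) (hW : ∀ u v, H.Adj u v → u ∈ W) :
    ∑ v ∈ W, dg K H v = (DH K H).card := by
  rw [Finset.card_eq_sum_card_fiberwise (f := fun d : K.Dart => d.fst) (t := W)]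
  · rfl
  · intro d hd
    exact hW _ _ (mem_DH.1 hd)

/-- number of darts ending in the set `X` equals number of darts starting there -/
lemma card_snd (H : SimpleGraph V) (P : V → Prop) :
    ((DH K H).filter fun d => P d.snd).card = ((DH K H).filter fun d => P d.fst).card := by
  refine Finset.card_bij (fun d _ => d.symm) ?_ ?_ ?_
  · intro d hd
    rw [mem_filter, mem_DH] at hd ⊢
    exact ⟨hd.1.symm, hd.2⟩
  · intro d _ e _ h
    exact Dart.symm_involutive.injective h
  · intro d hd
    rw [mem_filter, mem_DH] at hd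
    refine ⟨d.symm, ?_, d.symm_symm⟩
    rw [mem_filter, mem_DH]
    exact ⟨hd.1.symm, hd.2⟩

/-- In a subgraph `H` of minimum degree at least 4 without triangles on more than `90 g` vertices
there is a 4-cycle of vertices of degree 4. -/
theorem exists_good {g : ℕ} (hg : HasGenus R g) {H : SimpleGraph V} (hH : H ≤ K) (W : Finset V)
    (hW : ∀ u v, H.Adj u v → u ∈ W) (hne : W.Nonempty) (hdeg : ∀ v ∈ W, 4 ≤ dg K H v)
    (htri : ∀ a b c, H.Adj a b → H.Adj b c → ¬ H.Adj a c) (hbig : 90 * g < W.card) :
    ∃ a b c d, H.Adj a b ∧ H.Adj b c ∧ H.Adj c d ∧ H.Adj d a ∧ a ≠ c ∧ b ≠ d ∧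
      dg K H a = 4 ∧ dg K H b = 4 ∧ dg K H c = 4 ∧ dg K H d = 4 := by
  obtain ⟨v0, hv0⟩ := hne
  have h4 := hdeg v0 hv0
  -- the neighbours of v0
  have hD5 : 5 ≤ (DH K H).card := by
    have h1 : ((DH K H).filter fun d => d.fst = v0).card = dg K H v0 := rfl
    have h2 : ((DH K H).filter fun d => d.snd = v0).card = dg K H v0 :=
      (card_snd H (fun v => v = v0)).trans h1
    have h3 : Disjoint ((DH K H).filter fun d => d.fst = v0)
        ((DH K H).filter fun d => d.snd = v0) := by
      rw [Finset.disjoint_left]
      intro d h h'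
      rw [mem_filter] at h h'
      exact d.adj.ne (h.2.trans h'.2.symm)
    have h5 := Finset.card_union_of_disjoint h3
    have h6 : ((DH K H).filter fun d => d.fst = v0) ∪ ((DH K H).filter fun d => d.snd = v0)
        ⊆ DH K H := Finset.union_subset (filter_subset _ _) (filter_subset _ _)
    have h7 := Finset.card_le_card h6
    omega
  obtain ⟨d0, _⟩ : (DH K H).Nonempty := by
    rw [← Finset.card_pos]; omega
  have hE := card_DH (K := K) hH
  have hEul := euler_sub R hg hH W hW ⟨v0, hv0⟩ d0
  have hsum := sum_dg (K := K) W hW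
  have hge : 4 * W.card ≤ (DH K H).card := by
    rw [← hsum, mul_comm, ← smul_eq_mul, ← Finset.sum_const]
    exact Finset.sum_le_sum hdeg
  have hsz := fun q => region_size R hg.1 hD5 htri q
  have hside := sum_side R H
  -- regions with four sides
  set R4 : Finset (Quotient (rs R H)) := univ.filter fun q => (side R H q).card = 4 with hR4
  have hcnt : 5 * Fintype.card (Quotient (rs R H)) ≤ (DH K H).card + R4.card := by
    rw [← hside, hR4, Finset.card_filter, ← Finset.sum_add_distrib, mul_comm, ← smul_eq_mul,
      ← Finset.card_univ, ← Finset.sum_const]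
    refine Finset.sum_le_sum fun q _ => ?_
    have := (hsz q).1
    split_ifs with h
    · omega
    · omega
  have h4r : 4 * Fintype.card (Quotient (rs R H)) ≤ (DH K H).card := by
    rw [← hside, mul_comm, ← smul_eq_mul, ← Finset.card_univ, ← Finset.sum_const]
    exact Finset.sum_le_sum fun q _ => (hsz q).1
  -- darts at vertices of high degree
  set HD : Finset K.Dart := (DH K H).filter fun d => 5 ≤ dg K H d.fst ∨ 5 ≤ dg K H d.snd with hHD
  have hhigh : ((DH K H).filter fun d => 5 ≤ dg K H d.fst).card + 20 * W.card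
      ≤ 5 * (DH K H).card := by
    have h1 : ((DH K H).filter fun d => 5 ≤ dg K H d.fst).card
        = ∑ v ∈ W, if 5 ≤ dg K H v then dg K H v else 0 := by
      rw [Finset.card_eq_sum_card_fiberwise (f := fun d : K.Dart => d.fst) (t := W)]
      · refine Finset.sum_congr rfl fun v _ => ?_
        rw [Finset.filter_filter]
        split_ifs with h
        · unfold dg
          congr 1
          ext d
          simp only [mem_filter, and_congr_right_iff]
          intro _
          constructor
          · rintro ⟨_, h2⟩; exact h2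
          · rintro h2; exact ⟨h2 ▸ h, h2⟩
        · rw [Finset.card_eq_zero, Finset.filter_eq_empty_iff]
          rintro d _ ⟨h1, h2⟩
          exact h (h2 ▸ h1)
      · intro d hd
        exact hW _ _ (mem_DH.1 (mem_filter.1 hd).1)
    rw [h1, ← hsum, mul_comm 20, ← smul_eq_mul W.card, ← Finset.sum_const,
      ← Finset.sum_add_distrib, Finset.mul_sum]
    refine Finset.sum_le_sum fun v hv => ?_
    have := hdeg v hv
    split_ifs with h <;> omega
  have hHDc : HD.card ≤ 2 * ((DH K H).filter fun d => 5 ≤ dg K H d.fst).card := by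
    rw [hHD, Finset.filter_or]
    have h1 := Finset.card_union_le ((DH K H).filter fun d => 5 ≤ dg K H d.fst)
      ((DH K H).filter fun d => 5 ≤ dg K H d.snd)
    have h2 : ((DH K H).filter fun d => 5 ≤ dg K H d.snd).card
        = ((DH K H).filter fun d => 5 ≤ dg K H d.fst).card := by
      convert card_snd (K := K) H (fun v => 5 ≤ dg K H v)
    omega
  have hlt : HD.card < R4.card := by omega
  obtain ⟨q, hq, hqn⟩ : ∃ q ∈ R4, q ∉ HD.image (fun d => Quotient.mk (rs R H) d) := by
    by_contra hcon
    push Not at hcon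
    have h1 := Finset.card_le_card (show R4 ⊆ HD.image (fun d => Quotient.mk (rs R H) d) from hcon)
    have h2 := Finset.card_image_le (s := HD) (f := fun d => Quotient.mk (rs R H) d)
    omega
  rw [hR4, mem_filter] at hq
  obtain ⟨a, b, c, d, hab, hbc, hcd, hda, hac, hbd⟩ := (hsz q).2 hq.2
  have hadj : ∀ {x y : V}, s(x, y) ∈ supp (rb R H q) → H.Adj x y :=
    fun h => (supp_even (rb_mem R H q)).1 h
  have hlow : ∀ {x y : V}, s(x, y) ∈ supp (rb R H q) → dg K H x = 4 := by
    intro x y hxy
    have hxW : x ∈ W := hW _ _ (hadj hxy)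
    obtain ⟨e, he, hee⟩ := supp_rb R q hxy
    unfold side at he
    rw [mem_filter] at he
    have hnot : ¬ (5 ≤ dg K H e.fst ∨ 5 ≤ dg K H e.snd) := by
      intro h
      apply hqn
      rw [Finset.mem_image]
      exact ⟨e, by rw [hHD, mem_filter]; exact ⟨he.1, h⟩, he.2⟩
    have hx : x = e.fst ∨ x = e.snd := by
      have : x ∈ e.edge := by rw [hee]; exact Sym2.mem_mk_left _ _
      exact Sym2.mem_iff.1 this
    have h4x := hdeg x hxW
    rcases hx with rfl | rfl
    · omega
    · omega
  exact ⟨a, b, c, d, hadj hab, hadj hbc, hadj hcd, hadj hda, hac, hbd, hlow hab, hlow hbc,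
    hlow hcd, hlow hda⟩

/-- a triangle-free subgraph of minimum degree at least 4 has a cycle which does not bound -/
theorem not_all_null (hK : K.Connected) {H : SimpleGraph V} (hH : H ≤ K) (W : Finset V)
    (hW : ∀ u v, H.Adj u v → u ∈ W) (hne : W.Nonempty) (hdeg : ∀ v ∈ W, 4 ≤ dg K H v)
    (htri : ∀ a b c, H.Adj a b → H.Adj b c → ¬ H.Adj a c)
    (hnull : ZH K H ≤ LinearMap.range (cd (fs R))) : False := by
  obtain ⟨v0, hv0⟩ := hne
  have h4 := hdeg v0 hv0
  have hD5 : 5 ≤ (DH K H).card := by
    have h1 : ((DH K H).filter fun d => d.fst = v0).card = dg K H v0 := rfl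
    have h2 : ((DH K H).filter fun d => d.snd = v0).card = dg K H v0 :=
      (card_snd H (fun v => v = v0)).trans h1
    have h3 : Disjoint ((DH K H).filter fun d => d.fst = v0)
        ((DH K H).filter fun d => d.snd = v0) := by
      rw [Finset.disjoint_left]
      intro d h h'
      rw [mem_filter] at h h'
      exact d.adj.ne (h.2.trans h'.2.symm)
    have h5 := Finset.card_union_of_disjoint h3
    have h6 : ((DH K H).filter fun d => d.fst = v0) ∪ ((DH K H).filter fun d => d.snd = v0)
        ⊆ DH K H := Finset.union_subset (filter_subset _ _) (filter_subset _ _)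
    have h7 := Finset.card_le_card h6
    omega
  obtain ⟨d0, _⟩ : (DH K H).Nonempty := by
    rw [← Finset.card_pos]; omega
  have hE := card_DH (K := K) hH
  have hEul := euler_sub_planar R hH W hW ⟨v0, hv0⟩ d0 hnull
  have hsum := sum_dg (K := K) W hW
  have hge : 4 * W.card ≤ (DH K H).card := by
    rw [← hsum, mul_comm, ← smul_eq_mul, ← Finset.sum_const]
    exact Finset.sum_le_sum hdeg
  have hsz := fun q => region_size R hK hD5 htri q
  have hside := sum_side R H
  have h4r : 4 * Fintype.card (Quotient (rs R H)) ≤ (DH K H).card := by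
    rw [← hside, mul_comm, ← smul_eq_mul, ← Finset.card_univ, ← Finset.sum_const]
    exact Finset.sum_le_sum fun q _ => (hsz q).1
  omega

end

end Pool.Agent.U491.EF
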