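import Mathlib
import Pool.Agent.U491.EF.Good
import Pool.Agent.U491.EF.Col

namespace Pool.Agent.U491.EF

open SimpleGraph Finset Module

noncomputable section
open Classical

/-- the subgraph of `G` on `W` -/
def sub {V : Type} (G : SimpleGraph V) (W : Finset V) : SimpleGraph V where
  Adj a b := G.Adj a b ∧ a ∈ W ∧ b ∈ W
  symm := ⟨fun _ _ h => ⟨h.1.symm, h.2.2, h.2.1⟩⟩
  loopless := ⟨fun _ h => h.1.ne rfl⟩

lemma walk_sub {V : Type} {G : SimpleGraph V} {W : Finset V} {u v : V} (p : (sub G W).Walk u v)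
    (hu : u ∈ W) : ∀ x ∈ p.support, x ∈ W := by
  induction p with
  | nil =>
    intro x hx
    rw [Walk.support_nil, List.mem_singleton] at hx
    rw [hx]; exact hu
  | cons h p ih =>
    intro x hx
    rw [Walk.support_cons, List.mem_cons] at hx
    rcases hx with rfl | hx
    · exact hu
    · exact ih h.2.2 x hx

variable {V : Type} [Fintype V] {K G : SimpleGraph V} (R : Rotation K)

omit [Fintype V] in
lemma wc_mapLe {H : SimpleGraph V} (hHG : H ≤ G) (hGK : G ≤ K) (hHK : H ≤ K) {v : V}
    (c : H.Walk v v) : wc ((c.mapLe hHG).mapLe hGK) = wc (c.mapLe hHK) := by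
  ext e
  rw [wc_apply, wc_apply, Walk.edges_mapLe_eq_edges, Walk.edges_mapLe_eq_edges,
    Walk.edges_mapLe_eq_edges]

/-- a contractible closed walk of an even-faced graph has even length -/
lemma even_of_contractible (hE : EvenFaced R G) (hGK : G ≤ K) {v : V} (c : G.Walk v v)
    (hc : Contractible R (c.mapLe hGK)) : Even c.length := by
  obtain ⟨x, hx⟩ := wc_contractible R hc
  have hx' : ∀ e : K.edgeSet, e.1 ∉ G.edgeSet → cd (fs R) x e = 0 := by
    intro e he
    rw [hx, wc_apply, Walk.edges_mapLe_eq_edges, List.count_eq_zero_of_not_mem, Nat.cast_zero]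
    intro h
    exact he (c.edges_subset_edgeSet h)
  have h1 := parity R hE x hx'
  rw [hx, sum_wc] at h1
  rw [Walk.length_map] at h1
  exact (ZMod.natCast_eq_zero_iff_even).1 h1

lemma dg_sub (hGK : G ≤ K) {W : Finset V} {v : V} (hv : v ∈ W) :
    dg K (sub G W) v = (nb G W v).card := by
  unfold dg nb
  refine Finset.card_bij (fun d _ => d.snd) ?_ ?_ ?_
  · intro d hd
    rw [mem_filter, mem_DH] at hd
    rw [mem_filter]
    exact ⟨hd.1.2.2, hd.2 ▸ hd.1.1⟩
  · intro d hd e he h
    rw [mem_filter] at hd he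
    exact Dart.ext _ _ (Prod.ext (hd.2.trans he.2.symm) h)
  · intro u hu
    rw [mem_filter] at hu
    refine ⟨⟨(v, u), hGK hu.2⟩, ?_, rfl⟩
    rw [mem_filter, mem_DH]
    exact ⟨⟨hu.2, hv, hu.1⟩, rfl⟩

/-- Main theorem -/
theorem main {g : ℕ} (hg : HasGenus R g) (hGK : G ≤ K) (hE : EvenFaced R G)
    (hN : ∀ (v : V) (c : G.Walk v v), c.IsCycle → ¬ Contractible R (c.mapLe hGK) →
      90 * g + 4 ≤ c.length) : ListColourable G 4 := by
  intro C L hL
  by_contra hcon
  have htri : ∀ a b c, G.Adj a b → G.Adj b c → ¬ G.Adj a c := by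
    intro a b c hab hbc hac
    let w : G.Walk a a := Walk.cons hab (Walk.cons hbc (Walk.cons hac.symm Walk.nil))
    have hw : w.IsCycle := by
      have h1 : (Walk.cons hbc (Walk.cons hac.symm Walk.nil) : G.Walk b a).IsPath := by
        rw [Walk.isPath_def]
        simp [hbc.ne, hab.ne.symm, hac.ne.symm]
      rw [Walk.cons_isCycle_iff]
      refine ⟨h1, ?_⟩
      simp only [Walk.edges_cons, Walk.edges_nil, List.mem_cons, Sym2.eq_iff, List.not_mem_nil,
        or_false, not_or, not_and]
      refine ⟨⟨fun h => absurd h hab.ne, fun h => absurd h hac.ne⟩,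
        ⟨fun h => absurd h hac.ne, fun _ h => absurd h hbc.ne⟩⟩
    have hlen : w.length = 3 := rfl
    have hcontr : Contractible R (w.mapLe hGK) := by
      by_contra h
      have := hN a w hw h
      omega
    have := even_of_contractible R hE hGK w hcontr
    rw [hlen] at this
    exact absurd this (by decide)
  have huniv : ¬ Colb G L univ := by
    rintro ⟨c, h1, h2⟩
    exact hcon ⟨c, fun v => h1 v (mem_univ v), fun u v => h2 u (mem_univ u) v (mem_univ v)⟩
  obtain ⟨W, hW, hmin⟩ := WellFounded.has_min (wellFounded_lt : WellFounded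
    ((· < ·) : Finset V → Finset V → Prop)) {W | ¬ Colb G L W} ⟨univ, huniv⟩
  have hmin' : ∀ W' : Finset V, W' ⊂ W → Colb G L W' := by
    intro W' h
    by_contra h'
    exact hmin W' h' h
  have hWne : W.Nonempty := by
    rw [Finset.nonempty_iff_ne_empty]
    rintro rfl
    apply hW
    have hne : ∀ v, (L v).Nonempty := fun v => Finset.card_pos.1 (by have := hL v; omega)
    exact ⟨fun v => (hne v).choose, fun v hv => absurd hv (Finset.notMem_empty v),
      fun v hv => absurd hv (Finset.notMem_empty v)⟩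
  set H := sub G W with hH
  have hHG : H ≤ G := fun a b h => h.1
  have hHK : H ≤ K := hHG.trans hGK
  have hHW : ∀ u v, H.Adj u v → u ∈ W := fun u v h => h.2.1
  have hdeg : ∀ v ∈ W, 4 ≤ dg K H v := by
    intro v hv
    rw [hH, dg_sub hGK hv]
    exact (hL v).trans (critical_deg hW hv (hmin' _ (Finset.erase_ssubset hv)))
  have hHtri : ∀ a b c, H.Adj a b → H.Adj b c → ¬ H.Adj a c :=
    fun a b c h1 h2 h3 => htri a b c h1.1 h2.1 h3.1
  by_cases hbig : 90 * g < W.card
  · obtain ⟨a, b, c, d, hab, hbc, hcd, hda, hac, hbd, da, db, dc, dd⟩ :=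
      exists_good R hg hHK W hHW hWne hdeg hHtri hbig
    have ha : a ∈ W := hab.2.1
    have hb : b ∈ W := hbc.2.1
    have hc : c ∈ W := hcd.2.1
    have hd : d ∈ W := hda.2.1
    rw [hH, dg_sub hGK ha] at da
    rw [hH, dg_sub hGK hb] at db
    rw [hH, dg_sub hGK hc] at dc
    rw [hH, dg_sub hGK hd] at dd
    exact critical_cycle hW hL hmin' ha hb hc hd hab.1 hbc.1 hcd.1 hda.1 hac hbd
      (htri a b c hab.1 hbc.1) (htri b c d hbc.1 hcd.1) da db dc dd
  · apply not_all_null R hg.1 hHK W hHW hWne hdeg hHtri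
    apply ZH_le_B R hHK
    intro v c hc
    rw [← wc_mapLe hHG hGK hHK]
    apply wc_contractible
    by_contra hnc
    have h1 := hN v (c.mapLe hHG) (hc.mapLe hHG) hnc
    rw [Walk.length_map] at h1
    have hv : v ∈ W := by
      cases c with
      | nil => exact absurd rfl hc.ne_nil
      | cons h p => exact h.2.1
    have h2 : c.length ≤ W.card := by
      have h3 : c.support.tail.toFinset ⊆ W := by
        intro x hx
        rw [List.mem_toFinset] at hx
        exact walk_sub c hv x (List.mem_of_mem_tail hx)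
      have h4 := Finset.card_le_card h3
      rw [List.toFinset_card_of_nodup hc.support_nodup, List.length_tail,
        Walk.length_support] at h4
      omega
    omega

end

end Pool.Agent.U491.EF
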